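import Mathlib

/-!
Definitions for Lindenstrauss' property B.
-/

namespace Pool.Agent.Helper63.PropB

universe u v

/-- A bounded linear operator `T : X → Y` is norm attaining if `‖T x‖ = ‖T‖` for some `x` with
`‖x‖ = 1`. -/
def NormAttaining {X : Type u} {Y : Type v} [NormedAddCommGroup X] [NormedSpace ℝ X]
    [NormedAddCommGroup Y] [NormedSpace ℝ Y] (T : X →L[ℝ] Y) : Prop :=
  ∃ x : X, ‖x‖ = 1 ∧ ‖T x‖ = ‖T‖

/-- Lindenstrauss' property B of a real normed space `Y`: for every real Banach space `X ≠ 0`
the norm attaining operators are dense in the space of bounded linear operators `X → Y` with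
the operator norm. -/
def PropertyB (Y : Type v) [NormedAddCommGroup Y] [NormedSpace ℝ Y] : Prop :=
  ∀ (X : Type u) [NormedAddCommGroup X] [NormedSpace ℝ X] [CompleteSpace X] [Nontrivial X],
    Dense {T : X →L[ℝ] Y | NormAttaining T}

/-- The point `y` lies in a facet of the unit ball of `Y`: some convex subset of the unit sphere
contains `y` and spans `Y` linearly. (Convex subsets of the sphere lie in a hyperplane that misses
the origin, so for `dim Y = n` this says that some face of the unit ball that contains `y` has
affine dimension `n - 1`.) -/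
def InFacet {Y : Type v} [NormedAddCommGroup Y] [NormedSpace ℝ Y] (y : Y) : Prop :=
  ∃ F : Set Y, Convex ℝ F ∧ F ⊆ Metric.sphere (0 : Y) 1 ∧ y ∈ F ∧ Submodule.span ℝ F = ⊤

end Pool.Agent.Helper63.PropB
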