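import Mathlib
import Pool.Agent.Helper63.PropB.BishopPhelps

/-!
Vertices of the dual ball: if the supremum `max ‖e ∘ T‖`, `‖e‖ ≤ 1`, is attained at a vertex of
the dual ball, then `T` is a limit of norm attaining operators.
-/

namespace Pool.Agent.Helper63.PropB

open Set Metric Filter Topology

universe u v

section dual

variable {Y : Type v} [NormedAddCommGroup Y] [NormedSpace ℝ Y]

/-- `w` is a vertex: the face `{y : ‖y‖ ≤ 1, w y = 1}` has nonempty interior in the hyperplane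
`{w = 1}`. -/
def IsVertex (w : Y →L[ℝ] ℝ) : Prop :=
  ∃ y : Y, ∃ s : ℝ, 0 < s ∧ w y = 1 ∧ ∀ m : Y, w m = 0 → ‖m‖ ≤ s → ‖y + m‖ ≤ 1

theorem vertex_gap {w : Y →L[ℝ] ℝ} (hw : ‖w‖ ≤ 1) {y : Y} {s : ℝ} (hs : 0 < s) (hwy : w y = 1)
    (hm : ∀ m : Y, w m = 0 → ‖m‖ ≤ s → ‖y + m‖ ≤ 1) {e : Y →L[ℝ] ℝ} (he : ‖e‖ ≤ 1) :
    ‖e - w‖ ≤ (1 + 2 / s) * (1 - e y) := by
  have hy1 : ‖y‖ ≤ 1 := by simpa using hm 0 (by simp) (by simpa using hs.le)
  have hey : e y ≤ 1 := by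
    calc e y ≤ ‖e y‖ := le_abs_self _
      _ ≤ ‖e‖ * ‖y‖ := e.le_opNorm y
      _ ≤ 1 * 1 := by gcongr
      _ = 1 := one_mul 1
  have hker : ∀ m : Y, w m = 0 → e m ≤ ‖m‖ / s * (1 - e y) := by
    intro m hwm
    rcases eq_or_ne m 0 with h | h
    · subst h; simp
    · have hmpos : 0 < ‖m‖ := norm_pos_iff.2 h
      have h1 : ‖y + (s / ‖m‖) • m‖ ≤ 1 := by
        apply hm
        · rw [map_smul, hwm, smul_zero]
        · rw [norm_smul, Real.norm_of_nonneg (by positivity)]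
          rw [div_mul_cancel₀ _ hmpos.ne']
      have h2 : e (y + (s / ‖m‖) • m) ≤ 1 := by
        calc e (y + (s / ‖m‖) • m) ≤ ‖e (y + (s / ‖m‖) • m)‖ := le_abs_self _
          _ ≤ ‖e‖ * ‖y + (s / ‖m‖) • m‖ := e.le_opNorm _
          _ ≤ 1 * 1 := by gcongr
          _ = 1 := one_mul 1
      rw [map_add, map_smul, smul_eq_mul] at h2
      have h3 : s / ‖m‖ * e m ≤ 1 - e y := by linarith
      have h4 : ‖m‖ / s * (s / ‖m‖ * e m) ≤ ‖m‖ / s * (1 - e y) :=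
        mul_le_mul_of_nonneg_left h3 (by positivity)
      have h5 : ‖m‖ / s * (s / ‖m‖ * e m) = e m := by
        field_simp
      linarith
  have hone : 0 ≤ 1 - e y := by linarith
  refine (e - w).opNorm_le_bound (by positivity) (fun z => ?_)
  set m : Y := z - w z • y with hmdef
  have hwm : w m = 0 := by rw [hmdef, map_sub, map_smul, hwy]; simp
  have hwz : |w z| ≤ ‖z‖ := by
    calc |w z| = ‖w z‖ := rfl
      _ ≤ ‖w‖ * ‖z‖ := w.le_opNorm z
      _ ≤ 1 * ‖z‖ := by gcongr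
      _ = ‖z‖ := one_mul _
  have hmn : ‖m‖ ≤ 2 * ‖z‖ := by
    calc ‖m‖ ≤ ‖z‖ + ‖w z • y‖ := norm_sub_le _ _
      _ = ‖z‖ + |w z| * ‖y‖ := by rw [norm_smul, Real.norm_eq_abs]
      _ ≤ ‖z‖ + ‖z‖ * 1 := by gcongr
      _ = 2 * ‖z‖ := by ring
  have hz : z = w z • y + m := by rw [hmdef]; abel
  have h1 : (e - w) z = w z * (e y - 1) + e m := by
    rw [sub_apply]
    nth_rewrite 1 [hz]
    rw [map_add, map_smul, smul_eq_mul]
    ring
  have h2 : |e m| ≤ 2 * ‖z‖ / s * (1 - e y) := by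
    have ha := hker m hwm
    have hb := hker (-m) (by rw [map_neg, hwm, neg_zero])
    rw [map_neg, norm_neg] at hb
    have hc : ‖m‖ / s * (1 - e y) ≤ 2 * ‖z‖ / s * (1 - e y) := by gcongr
    exact abs_le.2 ⟨by linarith, by linarith⟩
  rw [h1, Real.norm_eq_abs]
  calc |w z * (e y - 1) + e m| ≤ |w z * (e y - 1)| + |e m| := abs_add_le _ _
    _ = |w z| * (1 - e y) + |e m| := by
        rw [abs_mul, abs_sub_comm (e y) 1, abs_of_nonneg hone]
    _ ≤ ‖z‖ * (1 - e y) + 2 * ‖z‖ / s * (1 - e y) := by gcongr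
    _ = (1 + 2 / s) * (1 - e y) * ‖z‖ := by ring

/-- Directions of a ball at one of its points, uniformly. -/
theorem uniform_directions {V : Type v} [NormedAddCommGroup V] [NormedSpace ℝ V]
    [FiniteDimensional ℝ V] {w : V} (hw : ‖w‖ ≤ 1) {θ : ℝ} (hθ : 0 < θ) :
    ∃ r : ℝ, 0 < r ∧ r ≤ 1 ∧ ∀ e : V, ‖e‖ ≤ 1 → e ≠ w →
      ∃ e' : V, ‖e'‖ ≤ 1 ∧ ‖w + (r / ‖e - w‖) • (e - w) - e'‖ ≤ θ * r := by
  classical
  let U : Set V := {u | ∃ e : V, ‖e‖ ≤ 1 ∧ e ≠ w ∧ u = ‖e - w‖⁻¹ • (e - w)}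
  have hU1 : U ⊆ closedBall (0 : V) 1 := by
    rintro u ⟨e, -, hne, rfl⟩
    have hpos : 0 < ‖e - w‖ := norm_pos_iff.2 (sub_ne_zero.2 hne)
    rw [mem_closedBall_zero_iff, norm_smul, Real.norm_of_nonneg (by positivity),
      inv_mul_cancel₀ hpos.ne']
  have htb : TotallyBounded U :=
    (isCompact_closedBall (0 : V) 1).totallyBounded.subset hU1
  obtain ⟨t, htU, htfin, htcov⟩ := Metric.finite_approx_of_totallyBounded htb θ hθ
  -- choose representatives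
  have hrep : ∀ u : V, ∃ ρ : ℝ, 0 < ρ ∧ ρ ≤ 1 ∧ (u ∈ t → ∀ r : ℝ, 0 ≤ r → r ≤ ρ → ‖w + r • u‖ ≤ 1) := by
    intro u
    by_cases hu : u ∈ t
    · obtain ⟨e, he, hne, rfl⟩ := htU hu
      have hpos : 0 < ‖e - w‖ := norm_pos_iff.2 (sub_ne_zero.2 hne)
      refine ⟨min ‖e - w‖ 1, lt_min hpos one_pos, min_le_right _ _, fun _ r hr hr2 => ?_⟩
      have hr3 : r / ‖e - w‖ ≤ 1 := by
        rw [div_le_one hpos]
        exact hr2.trans (min_le_left _ _)
      have hr0 : 0 ≤ r / ‖e - w‖ := by positivity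
      have h1 : w + r • ‖e - w‖⁻¹ • (e - w)
          = (1 - r / ‖e - w‖) • w + (r / ‖e - w‖) • e := by
        rw [smul_smul, ← div_eq_mul_inv]
        module
      rw [h1]
      refine (norm_add_le _ _).trans ?_
      rw [norm_smul, norm_smul, Real.norm_of_nonneg hr0, Real.norm_of_nonneg (by linarith)]
      nlinarith
    · exact ⟨1, one_pos, le_refl _, fun h => absurd h hu⟩
  choose ρ hρ0 hρ1 hρ using hrep
  obtain ⟨r, hr0, hr1, hr⟩ : ∃ r : ℝ, 0 < r ∧ r ≤ 1 ∧ ∀ u ∈ t, r ≤ ρ u := by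
    rcases t.eq_empty_or_nonempty with h | h
    · exact ⟨1, one_pos, le_refl _, by rw [h]; simp⟩
    · obtain ⟨u₀, hu₀, hmin⟩ := Set.exists_min_image t ρ htfin h
      exact ⟨ρ u₀, hρ0 _, hρ1 _, hmin⟩
  refine ⟨r, hr0, hr1, fun e he hne => ?_⟩
  have heU : ‖e - w‖⁻¹ • (e - w) ∈ U := ⟨e, he, hne, rfl⟩
  obtain ⟨u, hu, hdist⟩ := Set.mem_iUnion₂.1 (htcov heU)
  refine ⟨w + r • u, hρ u hu r hr0.le (hr u hu), ?_⟩
  have h1 : w + (r / ‖e - w‖) • (e - w) - (w + r • u) = r • (‖e - w‖⁻¹ • (e - w) - u) := by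
    rw [div_eq_mul_inv]
    module
  rw [h1, norm_smul, Real.norm_of_nonneg hr0.le]
  rw [mem_ball, dist_eq_norm] at hdist
  nlinarith

end dual

variable {X : Type u} [NormedAddCommGroup X] [NormedSpace ℝ X]
variable {Y : Type v} [NormedAddCommGroup Y] [NormedSpace ℝ Y]

/-- The norm of an operator from the norms of its compositions with functionals. -/
theorem opNorm_le_of_dual {T : X →L[ℝ] Y} {M : ℝ} (hM : 0 ≤ M)
    (h : ∀ e : Y →L[ℝ] ℝ, ‖e‖ ≤ 1 → ‖e.comp T‖ ≤ M) : ‖T‖ ≤ M := by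
  refine T.opNorm_le_bound hM (fun x => ?_)
  obtain ⟨e, he, hex⟩ := exists_dual_vector'' ℝ (T x)
  have h1 : ‖T x‖ = (e.comp T) x := by
    simpa using hex.symm
  rw [h1]
  calc (e.comp T) x ≤ ‖(e.comp T) x‖ := le_abs_self _
    _ ≤ ‖e.comp T‖ * ‖x‖ := (e.comp T).le_opNorm x
    _ ≤ M * ‖x‖ := by gcongr; exact h e he

theorem comp_norm_le {T : X →L[ℝ] Y} {e : Y →L[ℝ] ℝ} (he : ‖e‖ ≤ 1) : ‖e.comp T‖ ≤ ‖T‖ := by
  calc ‖e.comp T‖ ≤ ‖e‖ * ‖T‖ := e.opNorm_comp_le T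
    _ ≤ 1 * ‖T‖ := by gcongr
    _ = ‖T‖ := one_mul _

/-- The vertex lemma. -/
theorem approx_of_vertex [CompleteSpace X] [Nontrivial X] [FiniteDimensional ℝ Y]
    (T : X →L[ℝ] Y) {w : Y →L[ℝ] ℝ} (hw : ‖w‖ ≤ 1) (hv : IsVertex w)
    (hT : ‖w.comp T‖ = ‖T‖) {ε : ℝ} (hε : 0 < ε) :
    ∃ T' : X →L[ℝ] Y, NormAttaining T' ∧ ‖T' - T‖ < ε := by
  rcases eq_or_ne T 0 with h0 | h0
  · subst h0
    obtain ⟨x, hx⟩ := exists_norm_eq X (zero_le_one)
    exact ⟨0, ⟨x, hx, by simp⟩, by simpa using hε⟩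
  obtain ⟨y, s, hs, hwy, hm⟩ := hv
  have hy1 : ‖y‖ ≤ 1 := by simpa using hm 0 (by simp) (by simpa using hs.le)
  set M : ℝ := ‖T‖ with hMdef
  have hM : 0 < M := norm_pos_iff.2 h0
  set c : ℝ := (1 + 2 / s)⁻¹ with hcdef
  have hA : 0 < 1 + 2 / s := by positivity
  have hc : 0 < c := inv_pos.2 hA
  have hc1 : c ≤ 1 := by
    rw [hcdef]; apply inv_le_one_of_one_le₀
    have : 0 < 2 / s := by positivity
    linarith
  have hgap : ∀ e : Y →L[ℝ] ℝ, ‖e‖ ≤ 1 → e y ≤ 1 - c * ‖e - w‖ := by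
    intro e he
    have h1 := vertex_gap hw hs hwy hm he
    have h2 : c * ‖e - w‖ ≤ c * ((1 + 2 / s) * (1 - e y)) := by gcongr
    have h3 : c * ((1 + 2 / s) * (1 - e y)) = 1 - e y := by
      rw [← mul_assoc, hcdef, inv_mul_cancel₀ hA.ne', one_mul]
    linarith
  -- parameters
  set ε₁ : ℝ := ε / (4 * M) with hε₁
  have hε₁pos : 0 < ε₁ := by positivity
  obtain ⟨r, hr0, hr1, hr⟩ := uniform_directions (V := Y →L[ℝ] ℝ) hw
    (show 0 < c * ε₁ / 2 by positivity)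
  set η : ℝ := c * r * ε₁ * M / 4 with hη
  have hηpos : 0 < η := by positivity
  obtain ⟨ψ, hψ1, x₀, hx₀, hψx⟩ := bishop_phelps ((1 + ε₁) • (w.comp T)) hηpos
  set ζ : X →L[ℝ] ℝ := w.comp T with hζ
  have hζn : ‖ζ‖ = M := hT
  have hψlow : (1 + ε₁) * M - η ≤ ‖ψ‖ := by
    have h1 : ‖(1 + ε₁) • ζ‖ = (1 + ε₁) * M := by
      rw [norm_smul, Real.norm_of_nonneg (by positivity), hζn]
    have h2 : ‖(1 + ε₁) • ζ‖ ≤ ‖ψ‖ + ‖ψ - (1 + ε₁) • ζ‖ := by
      have := norm_sub_le ψ (ψ - (1 + ε₁) • ζ)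
      simpa using this
    linarith
  have hψζ : ‖ψ - ζ‖ ≤ ε₁ * M + η := by
    have h1 : ψ - ζ = (ψ - (1 + ε₁) • ζ) + ε₁ • ζ := by module
    rw [h1]
    refine (norm_add_le _ _).trans ?_
    rw [norm_smul, Real.norm_of_nonneg hε₁pos.le, hζn]
    linarith
  set T' : X →L[ℝ] Y := T + (ψ - ζ).smulRight y with hT'
  have hT'app : ∀ x, T' x = T x + (ψ x - w (T x)) • y := by
    intro x; simp [hT', hζ]
  have hwT' : w.comp T' = ψ := by
    ext x
    simp [hT'app, hwy]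
  -- norm estimates for compositions
  have hcomp : ∀ e : Y →L[ℝ] ℝ, ‖e.comp T'‖ ≤ ‖e.comp T‖ + |e y| * (ε₁ * M + η) := by
    intro e
    have h1 : e.comp T' = e.comp T + (e y) • (ψ - ζ) := by
      ext x
      simp [hT'app, hζ]
      ring
    rw [h1]
    refine (norm_add_le _ _).trans ?_
    rw [norm_smul, Real.norm_eq_abs]
    gcongr
  have hηsmall : 2 * η = c * r * ε₁ * M / 2 := by rw [hη]; ring
  have hmain0 : ∀ e : Y →L[ℝ] ℝ, ‖e‖ ≤ 1 → 0 ≤ e y → ‖e.comp T'‖ ≤ ‖ψ‖ := by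
    intro e he hey
    rcases eq_or_ne e w with h | h
    · subst h; rw [hwT']
    have hpos : 0 < ‖e - w‖ := norm_pos_iff.2 (sub_ne_zero.2 h)
    rcases le_or_gt r ‖e - w‖ with hcase | hcase
    · have h1 : |e y| ≤ 1 - c * r := by
        rw [abs_of_nonneg hey]
        have h1 := hgap e he
        have h2 : c * r ≤ c * ‖e - w‖ := by gcongr
        linarith
      have h2 := hcomp e
      have h3 : ‖e.comp T‖ ≤ M := comp_norm_le he
      have h4 : |e y| * (ε₁ * M + η) ≤ (1 - c * r) * (ε₁ * M + η) := by gcongr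
      have h5 : 0 < c * r * η := by positivity
      have h6 : (1 - c * r) * (ε₁ * M + η) = ε₁ * M + η - c * r * ε₁ * M - c * r * η := by ring
      have h7 : (1 + ε₁) * M = M + ε₁ * M := by ring
      linarith
    · -- extend the ray
      obtain ⟨e', he', hdist⟩ := hr e he h
      set e₁ : Y →L[ℝ] ℝ := w + (r / ‖e - w‖) • (e - w) with he₁
      have hk : 0 < r / ‖e - w‖ := by positivity
      have h1 : ‖e₁.comp T‖ ≤ M + c * ε₁ / 2 * r * M := by
        have : e₁.comp T = e'.comp T + (e₁ - e').comp T := by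
          ext x; simp
        rw [this]
        refine (norm_add_le _ _).trans ?_
        have h2 : ‖(e₁ - e').comp T‖ ≤ (c * ε₁ / 2 * r) * M := by
          refine ((e₁ - e').opNorm_comp_le T).trans ?_
          gcongr
        have h3 : ‖e'.comp T‖ ≤ M := comp_norm_le he'
        linarith
      have hey1 : e₁ y = 1 - (r / ‖e - w‖) * (1 - e y) := by
        simp [he₁, hwy]
        ring
      have h2 : e₁ y ≤ 1 - c * r := by
        rw [hey1]
        have h3 := hgap e he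
        have h4 : (r / ‖e - w‖) * (c * ‖e - w‖) ≤ (r / ‖e - w‖) * (1 - e y) := by
          gcongr; linarith
        have h5 : (r / ‖e - w‖) * (c * ‖e - w‖) = c * r := by
          field_simp
        linarith
      have h3 : 0 ≤ e₁ y := by
        have h4 : |(e₁ - w) y| ≤ r := by
          have h5 : (e₁ - w) = (r / ‖e - w‖) • (e - w) := by rw [he₁]; abel
          calc |(e₁ - w) y| = ‖(e₁ - w) y‖ := rfl
            _ ≤ ‖e₁ - w‖ * ‖y‖ := (e₁ - w).le_opNorm y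
            _ ≤ ‖e₁ - w‖ * 1 := by gcongr
            _ = r := by
              rw [mul_one, h5, norm_smul, Real.norm_of_nonneg hk.le]
              field_simp
        rw [sub_apply, hwy] at h4
        have := (abs_le.1 h4).1
        linarith
      have h4 : ‖e₁.comp T'‖ ≤ ‖ψ‖ := by
        have h5 := hcomp e₁
        rw [abs_of_nonneg h3] at h5
        have h6 : e₁ y * (ε₁ * M + η) ≤ (1 - c * r) * (ε₁ * M + η) := by gcongr
        have h7 : 0 < c * r * η := by positivity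
        have h8 : (1 - c * r) * (ε₁ * M + η) = ε₁ * M + η - c * r * ε₁ * M - c * r * η := by ring
        have h9 : (1 + ε₁) * M = M + ε₁ * M := by ring
        have h10 : c * ε₁ / 2 * r * M = c * r * ε₁ * M / 2 := by ring
        linarith
      -- convexity
      have h5 : e = (1 - ‖e - w‖ / r) • w + (‖e - w‖ / r) • e₁ := by
        rw [he₁, smul_add, smul_smul]
        have : ‖e - w‖ / r * (r / ‖e - w‖) = 1 := by field_simp
        rw [this, one_smul]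
        module
      have h6 : e.comp T' = (1 - ‖e - w‖ / r) • ψ + (‖e - w‖ / r) • (e₁.comp T') := by
        nth_rewrite 1 [h5]
        rw [← hwT']
        ext x; simp
      have h7 : ‖e - w‖ / r ≤ 1 := by rw [div_le_one hr0]; exact hcase.le
      have h8 : 0 ≤ ‖e - w‖ / r := by positivity
      rw [h6]
      refine (norm_add_le _ _).trans ?_
      rw [norm_smul, norm_smul, Real.norm_of_nonneg h8, Real.norm_of_nonneg (by linarith)]
      have h9 : ‖e - w‖ / r * ‖e₁.comp T'‖ ≤ ‖e - w‖ / r * ‖ψ‖ := by gcongr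
      have h10 : (1 - ‖e - w‖ / r) * ‖ψ‖ = ‖ψ‖ - ‖e - w‖ / r * ‖ψ‖ := by ring
      linarith
  have hmain : ∀ e : Y →L[ℝ] ℝ, ‖e‖ ≤ 1 → ‖e.comp T'‖ ≤ ‖ψ‖ := by
    intro e he
    rcases le_total 0 (e y) with h | h
    · exact hmain0 e he h
    · have h1 := hmain0 (-e) (by rwa [norm_neg]) (by simpa using h)
      have h2 : (-e).comp T' = -(e.comp T') := by ext x; simp
      rwa [h2, norm_neg] at h1
  have hnorm : ‖T'‖ ≤ ‖ψ‖ := opNorm_le_of_dual (norm_nonneg _) hmain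
  have hatt : ‖ψ‖ ≤ ‖T' x₀‖ := by
    have h1 : w (T' x₀) = ‖ψ‖ := by
      have : (w.comp T') x₀ = ‖ψ‖ := by rw [hwT', hψx]
      simpa using this
    calc ‖ψ‖ = w (T' x₀) := h1.symm
      _ ≤ ‖w (T' x₀)‖ := le_abs_self _
      _ ≤ ‖w‖ * ‖T' x₀‖ := w.le_opNorm _
      _ ≤ 1 * ‖T' x₀‖ := by gcongr
      _ = ‖T' x₀‖ := one_mul _
  have hle : ‖T' x₀‖ ≤ ‖T'‖ := by
    have := T'.le_opNorm x₀
    rwa [hx₀, mul_one] at this
  refine ⟨T', ⟨x₀, hx₀, by linarith⟩, ?_⟩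
  have h1 : T' - T = (ψ - ζ).smulRight y := by rw [hT']; abel
  rw [h1, ContinuousLinearMap.norm_smulRight_apply]
  have h2 : η ≤ ε₁ * M := by
    rw [hη]
    have h4 : c * r ≤ 1 := mul_le_one₀ hc1 hr0.le hr1
    have h3 : 0 < ε₁ * M := by positivity
    have h5 : c * r * (ε₁ * M) ≤ 1 * (ε₁ * M) := by gcongr
    have h6 : c * r * ε₁ * M / 4 = c * r * (ε₁ * M) / 4 := by ring
    linarith
  have h3 : ε₁ * M = ε / 4 := by rw [hε₁]; field_simp
  calc ‖ψ - ζ‖ * ‖y‖ ≤ (ε₁ * M + η) * 1 := by gcongr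
    _ ≤ ε / 2 := by linarith
    _ < ε := by linarith

end Pool.Agent.Helper63.PropB
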