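import Mathlib
import Pool.Agent.Helper63.PropB.Defs
import Pool.Agent.Helper63.PropB.Vertex

/-!
Linear perturbations `A ∘ T` and the Baire category argument.
-/

namespace Pool.Agent.Helper63.PropB

open Set Metric Filter Topology

universe u v w

variable {X : Type u} [NormedAddCommGroup X] [NormedSpace ℝ X]
variable {Y : Type v} [NormedAddCommGroup Y] [NormedSpace ℝ Y]

/-- The closure of the image of the unit ball. -/
def imBall (T : X →L[ℝ] Y) : Set Y := closure (T '' closedBall (0 : X) 1)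

theorem isCompact_imBall [FiniteDimensional ℝ Y] (T : X →L[ℝ] Y) : IsCompact (imBall T) := by
  have h1 : imBall T ⊆ closedBall (0 : Y) ‖T‖ := by
    refine closure_minimal ?_ isClosed_closedBall
    rintro _ ⟨x, hx, rfl⟩
    rw [mem_closedBall_zero_iff] at hx ⊢
    calc ‖T x‖ ≤ ‖T‖ * ‖x‖ := T.le_opNorm x
      _ ≤ ‖T‖ * 1 := by gcongr
      _ = ‖T‖ := mul_one _
  exact (isCompact_closedBall (0 : Y) ‖T‖).of_isClosed_subset isClosed_closure h1

theorem imBall_nonempty (T : X →L[ℝ] Y) : (imBall T).Nonempty :=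
  ⟨T 0, subset_closure ⟨0, by simp, rfl⟩⟩

theorem norm_le_of_mem_imBall {F : Type w} [NormedAddCommGroup F] [NormedSpace ℝ F]
    (T : X →L[ℝ] Y) {p : Y} (hp : p ∈ imBall T) (u : Y →L[ℝ] F) : ‖u p‖ ≤ ‖u.comp T‖ := by
  have h1 : imBall T ⊆ {p : Y | ‖u p‖ ≤ ‖u.comp T‖} := by
    refine closure_minimal ?_ (isClosed_le (by fun_prop) continuous_const)
    rintro _ ⟨x, hx, rfl⟩
    rw [mem_closedBall_zero_iff] at hx
    calc ‖u (T x)‖ = ‖(u.comp T) x‖ := rfl
      _ ≤ ‖u.comp T‖ * ‖x‖ := (u.comp T).le_opNorm x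
      _ ≤ ‖u.comp T‖ * 1 := by gcongr
      _ = ‖u.comp T‖ := mul_one _
  exact h1 hp

/-- The norm of `u ∘ T` is the value of `u` at some point of the closure of the image of the
unit ball. -/
theorem exists_max_imBall [FiniteDimensional ℝ Y] (T : X →L[ℝ] Y) (u : Y →L[ℝ] ℝ) :
    ∃ p ∈ imBall T, u p = ‖u.comp T‖ := by
  obtain ⟨p, hp, hmax⟩ := (isCompact_imBall T).exists_isMaxOn (imBall_nonempty T)
    (f := u) (by fun_prop)
  refine ⟨p, hp, le_antisymm ((le_abs_self _).trans (norm_le_of_mem_imBall T hp u)) ?_⟩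
  have hmax' : ∀ q ∈ imBall T, u q ≤ u p := fun q hq => hmax hq
  have hup : 0 ≤ u p := by
    have := hmax' (T 0) (subset_closure ⟨0, by simp, rfl⟩)
    simpa using this
  refine (u.comp T).opNorm_le_bound hup (fun x => ?_)
  rcases eq_or_ne x 0 with h | h
  · subst h; simp
  have hpos : 0 < ‖x‖ := norm_pos_iff.2 h
  have h1 : u (T (‖x‖⁻¹ • x)) ≤ u p := hmax' _ (subset_closure ⟨_, by
    rw [mem_closedBall_zero_iff, norm_smul, Real.norm_of_nonneg (by positivity),
      inv_mul_cancel₀ hpos.ne'], rfl⟩)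
  have h2 : u (T (‖x‖⁻¹ • (-x))) ≤ u p := hmax' _ (subset_closure ⟨_, by
    rw [mem_closedBall_zero_iff, norm_smul, Real.norm_of_nonneg (by positivity), norm_neg,
      inv_mul_cancel₀ hpos.ne'], rfl⟩)
  rw [map_smul, map_smul, smul_eq_mul, inv_mul_le_iff₀ hpos] at h1 h2
  rw [map_neg, map_neg] at h2
  rw [Real.norm_eq_abs]
  change |u (T x)| ≤ _
  rw [abs_le]
  constructor <;> nlinarith

/-- The norm of `T` is attained at an extreme point of the dual ball. -/
theorem exists_extreme_attaining [FiniteDimensional ℝ Y] (T : X →L[ℝ] Y) :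
    ∃ e ∈ extremePoints ℝ (closedBall (0 : Y →L[ℝ] ℝ) 1), ‖e.comp T‖ = ‖T‖ := by
  set B : Set (Y →L[ℝ] ℝ) := closedBall (0 : Y →L[ℝ] ℝ) 1 with hB
  have hcont : Continuous fun e : Y →L[ℝ] ℝ => ‖e.comp T‖ :=
    (continuous_id.clm_comp continuous_const).norm
  have hBc : IsCompact B := isCompact_closedBall _ _
  set F : Set (Y →L[ℝ] ℝ) := {e | e ∈ B ∧ ‖e.comp T‖ = ‖T‖} with hF
  have hFB : F ⊆ B := fun e he => he.1
  have hFc : IsCompact F := by
    refine hBc.of_isClosed_subset ?_ hFB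
    exact isClosed_closedBall.inter (isClosed_eq hcont continuous_const)
  have hFne : F.Nonempty := by
    obtain ⟨e, he, hmax⟩ := hBc.exists_isMaxOn ⟨0, by simp [hB]⟩ hcont.continuousOn
    refine ⟨e, he, le_antisymm (comp_norm_le (mem_closedBall_zero_iff.1 he)) ?_⟩
    exact opNorm_le_of_dual (norm_nonneg _) (fun e' he' => hmax (mem_closedBall_zero_iff.2 he'))
  have hext : IsExtreme ℝ B F := by
    refine ⟨hFB, ?_⟩
    intro x hx y hy z hz hzxy
    obtain ⟨a, b, ha, hb, hab, rfl⟩ := hzxy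
    refine ⟨hx, le_antisymm (comp_norm_le (mem_closedBall_zero_iff.1 hx)) ?_⟩
    have h1 : (a • x + b • y).comp T = a • x.comp T + b • y.comp T := by
      ext t; simp
    have h2 : ‖T‖ ≤ a * ‖x.comp T‖ + b * ‖y.comp T‖ := by
      rw [← hz.2, h1]
      refine (norm_add_le _ _).trans ?_
      rw [norm_smul, norm_smul, Real.norm_of_nonneg ha.le, Real.norm_of_nonneg hb.le]
    have h3 : ‖y.comp T‖ ≤ ‖T‖ := comp_norm_le (mem_closedBall_zero_iff.1 hy)
    have h4 : b * ‖y.comp T‖ ≤ b * ‖T‖ := by gcongr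
    have h5 : a * ‖T‖ + b * ‖T‖ = ‖T‖ := by rw [← add_mul, hab, one_mul]
    have h6 : a * ‖T‖ ≤ a * ‖x.comp T‖ := by linarith
    exact le_of_mul_le_mul_left h6 ha
  obtain ⟨e, he⟩ := hFc.extremePoints_nonempty hFne
  exact ⟨e, hext.extremePoints_subset_extremePoints he, (extremePoints_subset he).2⟩

theorem isOpen_lt_comp (T : X →L[ℝ] Y) (w : Y →L[ℝ] ℝ) :
    IsOpen {A : Y →L[ℝ] Y | ‖w.comp (A.comp T)‖ < ‖A.comp T‖} := by
  refine isOpen_lt ?_ ?_
  · exact (continuous_const.clm_comp (continuous_id.clm_comp continuous_const)).norm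
  · exact (continuous_id.clm_comp continuous_const).norm

/-- If `w` is not a vertex, then for a dense set of `A` the norm of `A ∘ T` is not attained
at `w`. -/
theorem dense_lt_comp [FiniteDimensional ℝ Y] (T : X →L[ℝ] Y) (hT0 : T ≠ 0) {w : Y →L[ℝ] ℝ}
    (hw : ‖w‖ ≤ 1) (hv : ¬ IsVertex w) :
    Dense {A : Y →L[ℝ] Y | ‖w.comp (A.comp T)‖ < ‖A.comp T‖} := by
  rw [Metric.dense_iff]
  intro A₀ r hr
  by_contra hne
  rw [Set.not_nonempty_iff_eq_empty] at hne
  have heq : ∀ A : Y →L[ℝ] Y, ‖A - A₀‖ < r → ‖w.comp (A.comp T)‖ = ‖A.comp T‖ := by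
    intro A hA
    refine le_antisymm (comp_norm_le hw) ?_
    by_contra hlt
    push Not at hlt
    have : A ∈ ball A₀ r ∩ {A : Y →L[ℝ] Y | ‖w.comp (A.comp T)‖ < ‖A.comp T‖} :=
      ⟨by rwa [mem_ball, dist_eq_norm], hlt⟩
    rw [hne] at this
    exact this
  obtain ⟨A₁, hA₁, hA₁T⟩ : ∃ A₁ : Y →L[ℝ] Y, ‖A₁ - A₀‖ < r ∧ A₁.comp T ≠ 0 := by
    by_cases h : A₀.comp T = 0
    · set t : ℝ := r / (2 * (‖ContinuousLinearMap.id ℝ Y‖ + 1)) with ht
      have htpos : 0 < t := by positivity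
      refine ⟨A₀ + t • ContinuousLinearMap.id ℝ Y, ?_, ?_⟩
      · rw [add_sub_cancel_left, norm_smul, Real.norm_of_nonneg htpos.le]
        have h1 : t * ‖ContinuousLinearMap.id ℝ Y‖ ≤ t * (‖ContinuousLinearMap.id ℝ Y‖ + 1) := by
          gcongr; linarith
        have h2 : t * (‖ContinuousLinearMap.id ℝ Y‖ + 1) = r / 2 := by
          rw [ht]; field_simp
        linarith
      · intro h0
        apply hT0
        have h1 : (A₀ + t • ContinuousLinearMap.id ℝ Y).comp T = A₀.comp T + t • T := by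
          ext x; simp
        rw [h1, h, zero_add, smul_eq_zero] at h0
        rcases h0 with h0 | h0
        · exact absurd h0 htpos.ne'
        · exact h0
    · exact ⟨A₀, by simpa using hr, h⟩
  set u : Y →L[ℝ] ℝ := w.comp A₁ with hu
  set M : ℝ := ‖A₁.comp T‖ with hMdef
  have hM : 0 < M := norm_pos_iff.2 hA₁T
  have huM : ‖u.comp T‖ = M := by
    have := heq A₁ hA₁
    rwa [← ContinuousLinearMap.comp_assoc] at this
  obtain ⟨p, hp, hup⟩ := exists_max_imBall T u
  rw [huM] at hup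
  apply hv
  set r' : ℝ := r - ‖A₁ - A₀‖ with hr'
  have hr'pos : 0 < r' := by linarith
  refine ⟨M⁻¹ • A₁ p, r' / (2 * (‖u‖ + 1)), by positivity, ?_, ?_⟩
  · rw [map_smul]
    change M⁻¹ • u p = 1
    rw [hup, smul_eq_mul, inv_mul_cancel₀ hM.ne']
  intro m hwm hms
  set A : Y →L[ℝ] Y := A₁ + u.smulRight m with hA
  have hAnorm : ‖A - A₀‖ < r := by
    have h1 : A - A₀ = (A₁ - A₀) + u.smulRight m := by rw [hA]; abel
    rw [h1]
    refine (norm_add_le _ _).trans_lt ?_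
    rw [ContinuousLinearMap.norm_smulRight_apply]
    have h2 : ‖u‖ * ‖m‖ ≤ (‖u‖ + 1) * (r' / (2 * (‖u‖ + 1))) := by
      gcongr; linarith
    have h3 : (‖u‖ + 1) * (r' / (2 * (‖u‖ + 1))) = r' / 2 := by field_simp
    linarith
  have hwA : w.comp (A.comp T) = u.comp T := by
    ext x
    simp [hA, hu, hwm]
  have hAT : ‖A.comp T‖ = M := by
    rw [← heq A hAnorm, hwA, huM]
  have hAp : A p = A₁ p + M • m := by
    simp [hA, hup]
  have h1 : ‖A p‖ ≤ M := by
    rw [← hAT]; exact norm_le_of_mem_imBall T hp A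
  have h2 : M⁻¹ • A₁ p + m = M⁻¹ • A p := by
    rw [hAp, smul_add, smul_smul, inv_mul_cancel₀ hM.ne', one_smul]
  rw [h2, norm_smul, Real.norm_of_nonneg (by positivity)]
  rw [inv_mul_le_iff₀ hM, mul_one]
  exact h1

/-- If every linear perturbation argument ends at a vertex: countably many extreme points. -/
theorem approx_of_countable [CompleteSpace X] [Nontrivial X] [FiniteDimensional ℝ Y]
    (hcount : (extremePoints ℝ (closedBall (0 : Y →L[ℝ] ℝ) 1)).Countable)
    (T : X →L[ℝ] Y) {ε : ℝ} (hε : 0 < ε) :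
    ∃ T' : X →L[ℝ] Y, NormAttaining T' ∧ ‖T' - T‖ < ε := by
  rcases eq_or_ne T 0 with h0 | h0
  · subst h0
    obtain ⟨x, hx⟩ := exists_norm_eq X (zero_le_one)
    exact ⟨0, ⟨x, hx, by simp⟩, by simpa using hε⟩
  set S : Set (Y →L[ℝ] ℝ) :=
    {e | e ∈ extremePoints ℝ (closedBall (0 : Y →L[ℝ] ℝ) 1) ∧ ¬ IsVertex e} with hS
  have hScount : S.Countable := hcount.mono (fun e he => he.1)
  have hdense : Dense (⋂ w ∈ S, {A : Y →L[ℝ] Y | ‖w.comp (A.comp T)‖ < ‖A.comp T‖}) := by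
    refine dense_biInter_of_isOpen (fun w _ => isOpen_lt_comp T w) hScount (fun w hw => ?_)
    exact dense_lt_comp T h0 (mem_closedBall_zero_iff.1 (extremePoints_subset hw.1)) hw.2
  have hTpos : 0 < ‖T‖ := norm_pos_iff.2 h0
  obtain ⟨A, hAS, hA⟩ := Metric.dense_iff.1 hdense (ContinuousLinearMap.id ℝ Y)
    (ε / (2 * ‖T‖)) (by positivity)
  rw [mem_ball, dist_eq_norm] at hAS
  obtain ⟨e, he, hmax⟩ := exists_extreme_attaining (A.comp T)
  have hvert : IsVertex e := by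
    by_contra hnot
    have h1 := Set.mem_iInter₂.1 hA e ⟨he, hnot⟩
    rw [Set.mem_ofPred_eq, hmax] at h1
    exact lt_irrefl _ h1
  obtain ⟨T', hT', hclose⟩ := approx_of_vertex (A.comp T)
    (mem_closedBall_zero_iff.1 (extremePoints_subset he)) hvert hmax (half_pos hε)
  refine ⟨T', hT', ?_⟩
  have h1 : T' - T = (T' - A.comp T) + (A - ContinuousLinearMap.id ℝ Y).comp T := by
    ext x; simp
  rw [h1]
  refine (norm_add_le _ _).trans_lt ?_
  have h2 : ‖(A - ContinuousLinearMap.id ℝ Y).comp T‖ ≤ ε / (2 * ‖T‖) * ‖T‖ := by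
    refine (ContinuousLinearMap.opNorm_comp_le _ _).trans ?_
    gcongr
  have h3 : ε / (2 * ‖T‖) * ‖T‖ = ε / 2 := by field_simp
  linarith

theorem propertyB_of_countable [FiniteDimensional ℝ Y]
    (hcount : (extremePoints ℝ (closedBall (0 : Y →L[ℝ] ℝ) 1)).Countable) :
    PropertyB.{u, v} Y := by
  intro X _ _ _ _
  rw [Metric.dense_iff]
  intro T r hr
  obtain ⟨T', hT', hclose⟩ := approx_of_countable hcount T hr
  exact ⟨T', by rwa [mem_ball, dist_eq_norm], hT'⟩

end Pool.Agent.Helper63.PropB
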