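import Mathlib

/-!
An abstract measure estimate: a family of functions `f m`, `m ∈ U`, on a compact set `Q`, and maps
`S m k`; if `S` separates the maximizers of different `k` and does not shrink sets of `m`, then
the set of all `S m k`, `k` a maximizer of `f m`, is not small.
-/

namespace Pool.Agent.Helper63.PropB

open Set Metric Filter Topology MeasureTheory
open scoped ENNReal

theorem finite_comparison {W K : Type*} [TopologicalSpace W] [T2Space W] [TopologicalSpace K]
    [T2Space K] {U : Set W} {Q : Set K} (hU : IsCompact U) (hQ : IsCompact Q)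
    {f : W → K → ℝ} (hf : Continuous fun p : W × K => f p.1 p.2)
    {S : W → K → W} (hS : ContinuousOn (fun p : W × K => S p.1 p.2) (U ×ˢ Q))
    {V : Set W} (hV : IsOpen V)
    (hVX : ∀ m ∈ U, ∀ k ∈ Q, (∀ k' ∈ Q, f m k' ≤ f m k) → S m k ∈ V) :
    ∃ F : Finset K, (F : Set K) ⊆ Q ∧ ∀ m ∈ U, ∀ k ∈ Q, (∀ k' ∈ F, f m k' ≤ f m k) →
      S m k ∈ V := by
  classical
  set Z : Set (W × K) := (U ×ˢ Q) ∩ (fun p : W × K => S p.1 p.2) ⁻¹' Vᶜ with hZ
  have hUQ : IsCompact (U ×ˢ Q) := hU.prod hQ
  have hZc : IsCompact Z :=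
    hUQ.of_isClosed_subset (hS.preimage_isClosed_of_isClosed hUQ.isClosed hV.isClosed_compl)
      inter_subset_left
  have hbeat : ∀ p : W × K, ∃ k' : K, p ∈ Z → k' ∈ Q ∧ f p.1 p.2 < f p.1 k' := by
    intro p
    by_cases hp : p ∈ Z
    · by_contra hcon
      push Not at hcon
      apply hp.2
      refine hVX p.1 hp.1.1 p.2 hp.1.2 (fun k' hk' => ?_)
      exact (hcon k').2 hk'
    · obtain ⟨k0⟩ : Nonempty K := ⟨p.2⟩
      exact ⟨k0, fun h => absurd h hp⟩
  choose g hg using hbeat
  obtain ⟨t, htZ, hcov⟩ := hZc.elim_nhds_subcover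
    (fun p => {q : W × K | f q.1 q.2 < f q.1 (g p)}) (by
      intro p hp
      apply IsOpen.mem_nhds
      · exact isOpen_lt hf (hf.comp (continuous_fst.prodMk continuous_const))
      · exact (hg p hp).2)
  refine ⟨t.image g, ?_, ?_⟩
  · intro k hk
    rw [Finset.coe_image] at hk
    obtain ⟨p, hp, rfl⟩ := hk
    exact (hg p (htZ p hp)).1
  · intro m hm k hk hmax
    by_contra hnot
    have hmem : (m, k) ∈ Z := ⟨⟨hm, hk⟩, hnot⟩
    obtain ⟨p, hp, hlt⟩ := Set.mem_iUnion₂.1 (hcov hmem)
    have h1 := hmax (g p) (Finset.mem_image_of_mem g hp)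
    have h2 : f m k < f m (g p) := hlt
    linarith

theorem measure_le_contact {W K : Type*} [MetricSpace W] [ProperSpace W] [MeasurableSpace W]
    [BorelSpace W] [TopologicalSpace K] [T2Space K] {μ : Measure W} [IsFiniteMeasureOnCompacts μ]
    {U : Set W} {Q : Set K} (hU : IsCompact U) (hQ : IsCompact Q) (hQne : Q.Nonempty)
    {f : W → K → ℝ} (hf : Continuous fun p : W × K => f p.1 p.2)
    {S : W → K → W} (hS : ContinuousOn (fun p : W × K => S p.1 p.2) (U ×ˢ Q))
    {c : ℝ≥0∞} (hc : c ≠ ⊤)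
    (hexp : ∀ k ∈ Q, ∀ s ⊆ U, μ s ≤ c * μ ((fun m => S m k) '' s))
    (hinj : ∀ m ∈ U, ∀ m' ∈ U, ∀ k ∈ Q, ∀ k' ∈ Q, f m k' ≤ f m k → f m' k ≤ f m' k' →
      S m k = S m' k' → k = k') :
    μ U ≤ c * μ {x | ∃ m ∈ U, ∃ k ∈ Q, (∀ k' ∈ Q, f m k' ≤ f m k) ∧ S m k = x} := by
  classical
  set X : Set W := {x | ∃ m ∈ U, ∃ k ∈ Q, (∀ k' ∈ Q, f m k' ≤ f m k) ∧ S m k = x} with hX
  -- compactness of the contact set
  have hUQ : IsCompact (U ×ˢ Q) := hU.prod hQ
  set G : Set (W × K) := (U ×ˢ Q) ∩ ⋂ k' ∈ Q, {p : W × K | f p.1 k' ≤ f p.1 p.2} with hG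
  have hGc : IsCompact G := by
    refine hUQ.inter_right ?_
    refine isClosed_biInter (fun k' _ => ?_)
    exact isClosed_le (hf.comp (continuous_fst.prodMk continuous_const)) hf
  have hXG : X = (fun p : W × K => S p.1 p.2) '' G := by
    ext x
    constructor
    · rintro ⟨m, hm, k, hk, hmax, rfl⟩
      refine ⟨(m, k), ⟨⟨hm, hk⟩, ?_⟩, rfl⟩
      simp only [mem_iInter]
      intro k' hk'
      exact hmax k' hk'
    · rintro ⟨⟨m, k⟩, ⟨⟨hm, hk⟩, hmax⟩, rfl⟩
      simp only [mem_iInter] at hmax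
      exact ⟨m, hm, k, hk, fun k' hk' => hmax k' hk', rfl⟩
  have hXc : IsCompact X := by
    rw [hXG]
    exact hGc.image_of_continuousOn (hS.mono inter_subset_left)
  -- the estimate for neighbourhoods
  have key : ∀ δ : ℝ, 0 < δ → μ U ≤ c * μ (cthickening δ X) := by
    intro δ hδ
    obtain ⟨F₀, hF₀, hF₀V⟩ := finite_comparison hU hQ hf hS (isOpen_thickening (δ := δ) (E := X))
      (by
        intro m hm k hk hmax
        exact self_subset_thickening hδ X ⟨m, hm, k, hk, hmax, rfl⟩)
    obtain ⟨k₀, hk₀⟩ := hQne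
    set F : Finset K := insert k₀ F₀ with hF
    have hFQ : ∀ k ∈ F, k ∈ Q := by
      intro k hk
      rcases Finset.mem_insert.1 hk with h | h
      · rw [h]; exact hk₀
      · exact hF₀ h
    have hFne : F.Nonempty := ⟨k₀, Finset.mem_insert_self _ _⟩
    set cell : K → Set W := fun k => U ∩ ⋂ k' ∈ F, {m : W | f m k' ≤ f m k} with hcell
    have hcont : ∀ k : K, Continuous fun m => f m k := fun k =>
      hf.comp (continuous_id.prodMk continuous_const)
    have hcellc : ∀ k, IsCompact (cell k) := by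
      intro k
      refine hU.inter_right ?_
      exact isClosed_biInter (fun k' _ => isClosed_le (hcont k') (hcont k))
    have himc : ∀ k ∈ F, IsCompact ((fun m => S m k) '' cell k) := by
      intro k hk
      refine (hcellc k).image_of_continuousOn ?_
      have h1 : ContinuousOn (fun m : W => ((m, k) : W × K)) (cell k) :=
        (continuous_id.prodMk continuous_const).continuousOn
      exact hS.comp h1 (fun m hm => ⟨hm.1, hFQ k hk⟩)
    have hcover : U ⊆ ⋃ k ∈ F, cell k := by
      intro m hm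
      obtain ⟨k, hk, hmax⟩ := F.exists_max_image (fun k => f m k) hFne
      refine Set.mem_iUnion₂.2 ⟨k, hk, hm, ?_⟩
      simp only [mem_iInter]
      exact fun k' hk' => hmax k' hk'
    have hdisj : (F : Set K).PairwiseDisjoint (fun k => (fun m => S m k) '' cell k) := by
      intro k hk k' hk' hne
      rw [Function.onFun, Set.disjoint_left]
      rintro x ⟨m, hm, rfl⟩ ⟨m', hm', heq⟩
      apply hne
      have h1 := hm.2
      have h2 := hm'.2
      simp only [mem_iInter] at h1 h2
      exact hinj m hm.1 m' hm'.1 k (hFQ k hk) k' (hFQ k' hk') (h1 k' hk') (h2 k hk) heq.symm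
    calc μ U ≤ μ (⋃ k ∈ F, cell k) := measure_mono hcover
      _ ≤ ∑ k ∈ F, μ (cell k) := measure_biUnion_finset_le F _
      _ ≤ ∑ k ∈ F, c * μ ((fun m => S m k) '' cell k) := by
          refine Finset.sum_le_sum (fun k hk => ?_)
          exact hexp k (hFQ k hk) _ inter_subset_left
      _ = c * ∑ k ∈ F, μ ((fun m => S m k) '' cell k) := by rw [Finset.mul_sum]
      _ = c * μ (⋃ k ∈ F, (fun m => S m k) '' cell k) := by
          rw [measure_biUnion_finset hdisj (fun k hk => (himc k hk).measurableSet)]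
      _ ≤ c * μ (cthickening δ X) := by
          gcongr
          refine iUnion₂_subset (fun k hk => ?_)
          rintro x ⟨m, hm, rfl⟩
          apply thickening_subset_cthickening
          have h1 := hm.2
          simp only [mem_iInter] at h1
          exact hF₀V m hm.1 k (hFQ k hk) (fun k' hk' => h1 k' (Finset.mem_insert_of_mem hk'))
  have hlim : Tendsto (fun r => c * μ (cthickening r X)) (𝓝[>] 0) (𝓝 (c * μ X)) := by
    refine ENNReal.Tendsto.const_mul ?_ (Or.inr hc)
    exact (tendsto_measure_cthickening_of_isCompact hXc).mono_left nhdsWithin_le_nhds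
  refine ge_of_tendsto hlim ?_
  filter_upwards [self_mem_nhdsWithin] with δ hδ
  exact key δ hδ

end Pool.Agent.Helper63.PropB
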