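import Mathlib

/-!
The maps `z ↦ z + w(z) m + b(m, π z) y₀` in the affine chart `{w = 1}`: the key inequality.
-/

namespace Pool.Agent.Helper63.PropB

open Set Metric Filter Topology

universe v

variable {Y : Type v} [NormedAddCommGroup Y] [NormedSpace ℝ Y]

/-- The image of `y₀ + σ` under the linear map with parameter `m`. -/
noncomputable def shiftPt (b : Y →L[ℝ] Y →L[ℝ] ℝ) (y₀ σ m : Y) : Y := (1 + b m σ) • y₀ + (σ + m)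

theorem bilin_abs_le {b : Y →L[ℝ] Y →L[ℝ] ℝ} {L : ℝ} (hbL : ‖b‖ ≤ L) (u v : Y) :
    |b u v| ≤ L * ‖u‖ * ‖v‖ := by
  calc |b u v| = ‖b u v‖ := rfl
    _ ≤ ‖b‖ * ‖u‖ * ‖v‖ := b.le_opNorm₂ u v
    _ ≤ L * ‖u‖ * ‖v‖ := by gcongr

/-- The numerical end of the argument. -/
theorem key_numeric {c c' n₀ s₁ s₂ A : ℝ} (hc : 1 / 2 ≤ c) (hc' : 1 / 2 ≤ c') (hn₀ : 1 ≤ n₀)
    (hsum : (c + c') * n₀ + 49 * A ^ 2 ≤ s₁ + s₂) (hdiff : |s₁ - s₂| ≤ 4 * A)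
    (hN : s₁ * s₂ ≤ c * n₀ * (c' * n₀)) : A = 0 := by
  have hsq : (s₁ - s₂) ^ 2 ≤ (4 * A) ^ 2 := sq_le_sq' (by linarith [(abs_le.1 hdiff).1])
    (abs_le.1 hdiff).2
  have hcn : 1 ≤ (c + c') * n₀ := by nlinarith
  have hcn0 : 0 ≤ (c + c') * n₀ := by linarith
  have hsumsq : ((c + c') * n₀ + 49 * A ^ 2) ^ 2 ≤ (s₁ + s₂) ^ 2 :=
    pow_le_pow_left₀ (by positivity) hsum 2
  have h1 : 4 * (s₁ * s₂) = (s₁ + s₂) ^ 2 - (s₁ - s₂) ^ 2 := by ring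
  have h2 : 4 * (c * n₀ * (c' * n₀)) = ((c + c') * n₀) ^ 2 - ((c - c') * n₀) ^ 2 := by ring
  have h2' : 0 ≤ ((c - c') * n₀) ^ 2 := sq_nonneg _
  have h4 : ((c + c') * n₀ + 49 * A ^ 2) ^ 2
      = ((c + c') * n₀) ^ 2 + 98 * ((c + c') * n₀ * A ^ 2) + (49 * A ^ 2) ^ 2 := by ring
  have h5 : 1 * A ^ 2 ≤ (c + c') * n₀ * A ^ 2 := by gcongr
  have h6 : 0 ≤ (49 * A ^ 2) ^ 2 := sq_nonneg _
  have h7 : (4 * A) ^ 2 = 16 * A ^ 2 := by ring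
  have h8 : A ^ 2 ≤ 0 := by linarith
  exact (pow_eq_zero_iff two_ne_zero).1 (le_antisymm h8 (sq_nonneg A))

theorem key_inj {b : Y →L[ℝ] Y →L[ℝ] ℝ}
    (hpos : ∀ u, 100 * ‖u‖ ^ 2 ≤ b u u) {L ν : ℝ} (hbL : ‖b‖ ≤ L) (hL : 100 ≤ L)
    (hν0 : 0 ≤ ν) (hν : 24 * (L * ν) ≤ 1) {w : Y →L[ℝ] ℝ} (hw : ‖w‖ ≤ 1) {y₀ : Y}
    (hy₀ : ‖y₀‖ ≤ 1) (hwy₀ : w y₀ = 1) {σ σ' m m' : Y} (hσ : ‖σ‖ ≤ ν) (hσ' : ‖σ'‖ ≤ ν)
    (hm : ‖m‖ ≤ ν) (hm' : ‖m'‖ ≤ ν) (hwσ : w σ = 0) (hwm : w m = 0)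
    (hS : (1 + b m' σ') • (σ + m) = (1 + b m σ) • (σ' + m'))
    (hN : ‖shiftPt b y₀ σ' m‖ * ‖shiftPt b y₀ σ m'‖
      ≤ ‖shiftPt b y₀ σ m‖ * ‖shiftPt b y₀ σ' m'‖) : m = m' := by
  have hL0 : 0 ≤ L := by linarith
  have hLν : L * ν ≤ 1 / 24 := by linarith
  have hνs : ν ≤ 1 / 2400 := by nlinarith
  have hb1 : ∀ {u v : Y}, ‖u‖ ≤ ν → ‖v‖ ≤ ν → |b u v| ≤ ν / 24 := by
    intro u v hu hv
    calc |b u v| ≤ L * ‖u‖ * ‖v‖ := bilin_abs_le hbL u v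
      _ ≤ L * ν * ν := by gcongr
      _ ≤ 1 / 24 * ν := by gcongr
      _ = ν / 24 := by ring
  set c : ℝ := 1 + b m σ with hc
  set c' : ℝ := 1 + b m' σ' with hc'
  have hc1 := abs_le.1 (hb1 hm hσ)
  have hc1' := abs_le.1 (hb1 hm' hσ')
  have hclow : 1 / 2 ≤ c := by rw [hc]; linarith
  have hclow' : 1 / 2 ≤ c' := by rw [hc']; linarith
  have hcpos : 0 < c := by linarith
  have hcpos' : 0 < c' := by linarith
  set x : Y := c⁻¹ • (σ + m) with hx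
  have hx1 : σ + m = c • x := by rw [hx, smul_smul, mul_inv_cancel₀ hcpos.ne', one_smul]
  have hx2 : σ' + m' = c' • x := by
    have h1 : c • (σ' + m') = c • (c' • x) := by
      rw [← hS, hx1, smul_comm]
    exact smul_right_injective Y hcpos.ne' h1
  have hxn : ‖x‖ ≤ 4 * ν := by
    rw [hx, norm_smul, norm_inv, Real.norm_of_nonneg hcpos.le]
    have h1 : c⁻¹ ≤ 2 := by
      rw [inv_le_comm₀ hcpos (by norm_num)]
      linarith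
    have h2 : ‖σ + m‖ ≤ 2 * ν := (norm_add_le _ _).trans (by linarith)
    calc c⁻¹ * ‖σ + m‖ ≤ 2 * (2 * ν) := by gcongr
      _ = 4 * ν := by ring
  have hwx : w x = 0 := by rw [hx, map_smul, map_add, hwσ, hwm]; simp
  set a : Y := m - m' with ha
  set d : Y := σ - σ' with hd
  -- `a + d` is small
  have had : a + d = (c - c') • x := by
    have : a + d = (σ + m) - (σ' + m') := by rw [ha, hd]; abel
    rw [this, hx1, hx2, sub_smul]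
  have hcc : |c - c'| ≤ 1 / 24 * (‖a‖ + ‖d‖) := by
    have h1 : c - c' = b a σ + b m' d := by
      rw [hc, hc', ha, hd]
      simp only [map_sub, sub_apply]
      ring
    rw [h1]
    have h2 : |b a σ| ≤ L * ‖a‖ * ν := (bilin_abs_le hbL a σ).trans (by gcongr)
    have h3 : |b m' d| ≤ L * ν * ‖d‖ := (bilin_abs_le hbL m' d).trans (by gcongr)
    have h4 : L * ν * ‖a‖ ≤ 1 / 24 * ‖a‖ := by gcongr
    have h5 : L * ν * ‖d‖ ≤ 1 / 24 * ‖d‖ := by gcongr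
    calc |b a σ + b m' d| ≤ |b a σ| + |b m' d| := abs_add_le _ _
      _ ≤ L * ‖a‖ * ν + L * ν * ‖d‖ := add_le_add h2 h3
      _ = L * ν * ‖a‖ + L * ν * ‖d‖ := by ring
      _ ≤ 1 / 24 * (‖a‖ + ‖d‖) := by linarith
  have hna := norm_nonneg a
  have hnd := norm_nonneg d
  have hadn : ‖a + d‖ ≤ (‖a‖ + ‖d‖) * ν / 6 := by
    rw [had, norm_smul, Real.norm_eq_abs]
    calc |c - c'| * ‖x‖ ≤ (1 / 24 * (‖a‖ + ‖d‖)) * (4 * ν) := by gcongr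
      _ = (‖a‖ + ‖d‖) * ν / 6 := by ring
  have hd2 : ‖d‖ ≤ 2 * ‖a‖ := by
    have h1 : ‖d‖ ≤ ‖a + d‖ + ‖a‖ := by
      have : d = (a + d) - a := by abel
      calc ‖d‖ = ‖(a + d) - a‖ := by rw [← this]
        _ ≤ ‖a + d‖ + ‖a‖ := norm_sub_le _ _
    have h2 : (‖a‖ + ‖d‖) * ν / 6 ≤ (‖a‖ + ‖d‖) * (1 / 2400) / 6 := by gcongr
    linarith
  have hLad : L * ‖a + d‖ ≤ ‖a‖ := by
    calc L * ‖a + d‖ ≤ L * ((‖a‖ + ‖d‖) * ν / 6) := by gcongr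
      _ = (L * ν) * (‖a‖ + ‖d‖) / 6 := by ring
      _ ≤ (1 / 24) * (‖a‖ + 2 * ‖a‖) / 6 := by gcongr
      _ ≤ ‖a‖ := by linarith
  have hbad : 99 * ‖a‖ ^ 2 ≤ - b a d := by
    have h1 : b a d = b a (a + d) - b a a := by simp
    have h2 := (abs_le.1 (bilin_abs_le hbL a (a + d))).2
    have h3 : L * ‖a‖ * ‖a + d‖ ≤ ‖a‖ * ‖a‖ := by
      calc L * ‖a‖ * ‖a + d‖ = ‖a‖ * (L * ‖a + d‖) := by ring
        _ ≤ ‖a‖ * ‖a‖ := by gcongr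
    have h4 := hpos a
    rw [h1]
    nlinarith
  -- the four points
  have hP1 : shiftPt b y₀ σ m = c • (y₀ + x) := by
    rw [shiftPt, hx1, smul_add]
  have hP2 : shiftPt b y₀ σ' m' = c' • (y₀ + x) := by
    rw [shiftPt, hx2, smul_add]
  have hsum : shiftPt b y₀ σ' m + shiftPt b y₀ σ m' = (c + c') • (y₀ + x) - (b a d) • y₀ := by
    have h1 : (c + c') • (y₀ + x) = shiftPt b y₀ σ m + shiftPt b y₀ σ' m' := by
      rw [hP1, hP2, add_smul]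
    rw [h1]
    simp only [shiftPt, ha, hd, map_sub, sub_apply]
    module
  have hdiff : ‖shiftPt b y₀ σ' m - shiftPt b y₀ σ m'‖ ≤ 4 * ‖a‖ := by
    have h1 : shiftPt b y₀ σ' m - shiftPt b y₀ σ m' = (b a σ' - b m' d) • y₀ + (a - d) := by
      simp only [shiftPt, ha, hd, map_sub, sub_apply]
      module
    rw [h1]
    have h2 : |b a σ' - b m' d| ≤ 1 / 24 * (‖a‖ + ‖d‖) := by
      have h2 : |b a σ'| ≤ L * ‖a‖ * ν := (bilin_abs_le hbL a σ').trans (by gcongr)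
      have h3 : |b m' d| ≤ L * ν * ‖d‖ := (bilin_abs_le hbL m' d).trans (by gcongr)
      have h4 : L * ν * ‖a‖ ≤ 1 / 24 * ‖a‖ := by gcongr
      have h5 : L * ν * ‖d‖ ≤ 1 / 24 * ‖d‖ := by gcongr
      calc |b a σ' - b m' d| ≤ |b a σ'| + |b m' d| := abs_sub _ _
        _ ≤ L * ‖a‖ * ν + L * ν * ‖d‖ := add_le_add h2 h3
        _ = L * ν * ‖a‖ + L * ν * ‖d‖ := by ring
        _ ≤ 1 / 24 * (‖a‖ + ‖d‖) := by linarith
    calc ‖(b a σ' - b m' d) • y₀ + (a - d)‖ ≤ ‖(b a σ' - b m' d) • y₀‖ + ‖a - d‖ := norm_add_le _ _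
      _ ≤ (1 / 24 * (‖a‖ + ‖d‖)) * 1 + (‖a‖ + ‖d‖) := by
          rw [norm_smul, Real.norm_eq_abs]
          gcongr
          exact norm_sub_le _ _
      _ ≤ 4 * ‖a‖ := by linarith
  obtain ⟨e, he, hey⟩ := exists_dual_vector'' ℝ (y₀ + x)
  have hey' : e (y₀ + x) = ‖y₀ + x‖ := by simpa using hey
  set n₀ : ℝ := ‖y₀ + x‖ with hn₀
  have hn₀1 : 1 ≤ n₀ := by
    have h1 : w (y₀ + x) = 1 := by rw [map_add, hwy₀, hwx, add_zero]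
    calc (1 : ℝ) = w (y₀ + x) := h1.symm
      _ ≤ ‖w (y₀ + x)‖ := le_abs_self _
      _ ≤ ‖w‖ * ‖y₀ + x‖ := w.le_opNorm _
      _ ≤ 1 * ‖y₀ + x‖ := by gcongr
      _ = n₀ := one_mul _
  have hex : e x ≤ 4 * ν := by
    calc e x ≤ ‖e x‖ := le_abs_self _
      _ ≤ ‖e‖ * ‖x‖ := e.le_opNorm x
      _ ≤ 1 * (4 * ν) := by gcongr
      _ = 4 * ν := one_mul _
  have hey0 : 1 / 2 ≤ e y₀ := by
    have : e y₀ = n₀ - e x := by rw [← hey', map_add]; ring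
    rw [this]; linarith
  have hsumlow : (c + c') * n₀ + 49 * ‖a‖ ^ 2
      ≤ ‖shiftPt b y₀ σ' m‖ + ‖shiftPt b y₀ σ m'‖ := by
    have h1 : e (shiftPt b y₀ σ' m + shiftPt b y₀ σ m')
        ≤ ‖shiftPt b y₀ σ' m‖ + ‖shiftPt b y₀ σ m'‖ := by
      calc e (shiftPt b y₀ σ' m + shiftPt b y₀ σ m')
          ≤ ‖e (shiftPt b y₀ σ' m + shiftPt b y₀ σ m')‖ := le_abs_self _
        _ ≤ ‖e‖ * ‖shiftPt b y₀ σ' m + shiftPt b y₀ σ m'‖ := e.le_opNorm _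
        _ ≤ 1 * (‖shiftPt b y₀ σ' m‖ + ‖shiftPt b y₀ σ m'‖) := by
            gcongr
            exact norm_add_le _ _
        _ = _ := one_mul _
    rw [hsum, map_sub, map_smul, map_smul, hey', smul_eq_mul, smul_eq_mul] at h1
    have h2 : 99 * ‖a‖ ^ 2 * (1 / 2) ≤ - b a d * e y₀ := by
      have h3 : 0 ≤ 99 * ‖a‖ ^ 2 := by positivity
      exact mul_le_mul hbad hey0 (by norm_num) (h3.trans hbad)
    have h3 : 0 ≤ ‖a‖ ^ 2 := by positivity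
    linarith
  have hdiff2 := (abs_norm_sub_norm_le (shiftPt b y₀ σ' m) (shiftPt b y₀ σ m')).trans hdiff
  have hN' : ‖shiftPt b y₀ σ' m‖ * ‖shiftPt b y₀ σ m'‖ ≤ c * n₀ * (c' * n₀) := by
    refine hN.trans (le_of_eq ?_)
    rw [hP1, hP2, norm_smul, norm_smul, Real.norm_of_nonneg hcpos.le,
      Real.norm_of_nonneg hcpos'.le]
  have h5 := key_numeric hclow hclow' hn₀1 hsumlow hdiff2 hN'
  rw [ha] at h5
  exact sub_eq_zero.1 (norm_eq_zero.1 h5)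

/-- In the chart, `m ↦ (σ + m) / (1 + b(m, σ))` does not contract by more than a factor. -/
theorem chart_expands {b : Y →L[ℝ] Y →L[ℝ] ℝ} {L ν : ℝ} (hbL : ‖b‖ ≤ L) (hL : 100 ≤ L)
    (hν0 : 0 ≤ ν) (hν : 24 * (L * ν) ≤ 1) {σ m m' : Y} (hσ : ‖σ‖ ≤ ν) (hm : ‖m‖ ≤ ν)
    (hm' : ‖m'‖ ≤ ν) :
    ‖m - m'‖ ≤ 2 * ‖(1 + b m σ)⁻¹ • (σ + m) - (1 + b m' σ)⁻¹ • (σ + m')‖ := by
  have hL0 : 0 ≤ L := by linarith
  have hLν : L * ν ≤ 1 / 24 := by linarith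
  have hνs : ν ≤ 1 / 2400 := by nlinarith
  have hb1 : ∀ {u v : Y}, ‖u‖ ≤ ν → ‖v‖ ≤ ν → |b u v| ≤ ν / 24 := by
    intro u v hu hv
    calc |b u v| ≤ L * ‖u‖ * ‖v‖ := bilin_abs_le hbL u v
      _ ≤ L * ν * ν := by gcongr
      _ ≤ 1 / 24 * ν := by gcongr
      _ = ν / 24 := by ring
  set c : ℝ := 1 + b m σ with hc
  set c' : ℝ := 1 + b m' σ with hc'
  have hc1 := abs_le.1 (hb1 hm hσ)
  have hc1' := abs_le.1 (hb1 hm' hσ)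
  have hclow : 1 / 2 ≤ c := by rw [hc]; linarith
  have hcup : c ≤ 5 / 4 := by rw [hc]; linarith
  have hclow' : 1 / 2 ≤ c' := by rw [hc']; linarith
  have hcpos : 0 < c := by linarith
  have hcpos' : 0 < c' := by linarith
  -- `m - m' = c (S - S') + (c - c') S'`
  have h1 : m - m' = c • (c⁻¹ • (σ + m) - c'⁻¹ • (σ + m')) + (c - c') • (c'⁻¹ • (σ + m')) := by
    have h2 : c • c⁻¹ • (σ + m) = σ + m := by
      rw [smul_smul, mul_inv_cancel₀ hcpos.ne', one_smul]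
    have h3 : c' • c'⁻¹ • (σ + m') = σ + m' := by
      rw [smul_smul, mul_inv_cancel₀ hcpos'.ne', one_smul]
    rw [smul_sub, h2, sub_smul, h3]
    abel
  have h2 : ‖c'⁻¹ • (σ + m')‖ ≤ 4 * ν := by
    rw [norm_smul, norm_inv, Real.norm_of_nonneg hcpos'.le]
    have h1 : c'⁻¹ ≤ 2 := by
      rw [inv_le_comm₀ hcpos' (by norm_num)]
      linarith
    have h2 : ‖σ + m'‖ ≤ 2 * ν := (norm_add_le _ _).trans (by linarith)
    calc c'⁻¹ * ‖σ + m'‖ ≤ 2 * (2 * ν) := by gcongr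
      _ = 4 * ν := by ring
  have h3 : |c - c'| ≤ 1 / 24 * ‖m - m'‖ := by
    have h4 : c - c' = b (m - m') σ := by
      rw [hc, hc']; simp
    rw [h4]
    calc |b (m - m') σ| ≤ L * ‖m - m'‖ * ‖σ‖ := bilin_abs_le hbL _ _
      _ ≤ L * ‖m - m'‖ * ν := by gcongr
      _ = L * ν * ‖m - m'‖ := by ring
      _ ≤ 1 / 24 * ‖m - m'‖ := by gcongr
  have h4 : ‖m - m'‖ ≤ c * ‖c⁻¹ • (σ + m) - c'⁻¹ • (σ + m')‖ + |c - c'| * (4 * ν) := by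
    nth_rewrite 1 [h1]
    refine (norm_add_le _ _).trans ?_
    rw [norm_smul, norm_smul, Real.norm_of_nonneg hcpos.le, Real.norm_eq_abs]
    gcongr
  have h5 : |c - c'| * (4 * ν) ≤ (1 / 24 * ‖m - m'‖) * (4 * (1 / 2400)) := by gcongr
  have h6 : c * ‖c⁻¹ • (σ + m) - c'⁻¹ • (σ + m')‖ ≤ 5 / 4 * ‖c⁻¹ • (σ + m) - c'⁻¹ • (σ + m')‖ := by
    gcongr
  have h7 := norm_nonneg (m - m')
  linarith

end Pool.Agent.Helper63.PropB
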