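import Mathlib

/-!
Localisation: a small linear change makes the maximum of the norm over a compact symmetric set
concentrate near one pair of opposite points.
-/

namespace Pool.Agent.Helper63.PropB

open Set Metric Filter Topology

universe v

variable {Y : Type v} [NormedAddCommGroup Y] [NormedSpace ℝ Y] [FiniteDimensional ℝ Y]

theorem exists_exposed {C : Set Y} (hC : IsCompact C) (hne : ∃ z ∈ C, z ≠ 0) :
    ∃ p ∈ C, p ≠ 0 ∧ (∀ z ∈ C, ‖z‖ ≤ ‖p‖) ∧ ∃ q : Y →L[ℝ] ℝ, q p = 1 ∧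
      ∀ z ∈ C, ‖z‖ = ‖p‖ → 1 ≤ |q z| → z = p ∨ z = -p := by
  obtain ⟨z₀, hz₀, hz₀ne⟩ := hne
  obtain ⟨p₁, hp₁, hmax₁⟩ := hC.exists_isMaxOn ⟨z₀, hz₀⟩ continuous_norm.continuousOn
  have hmax₁' : ∀ z ∈ C, ‖z‖ ≤ ‖p₁‖ := fun z hz => hmax₁ hz
  set E : Set Y := C ∩ {z | ‖z‖ = ‖p₁‖} with hE
  have hEc : IsCompact E := hC.inter_right (isClosed_eq continuous_norm continuous_const)
  set τ := toEuclidean (E := Y) with hτ
  obtain ⟨p, hp, hmax⟩ := hEc.exists_isMaxOn ⟨p₁, hp₁, rfl⟩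
    (f := fun z => ‖τ z‖) (τ.continuous.norm.continuousOn)
  have hmax' : ∀ z ∈ E, ‖τ z‖ ≤ ‖τ p‖ := fun z hz => hmax hz
  have hpn : ‖p‖ = ‖p₁‖ := hp.2
  have hp0 : p ≠ 0 := by
    intro h
    rw [h, norm_zero] at hpn
    have h1 := hmax₁' z₀ hz₀
    rw [← hpn] at h1
    exact hz₀ne (norm_le_zero_iff.1 h1)
  have hτp : 0 < ‖τ p‖ := by
    rw [norm_pos_iff]
    intro h
    exact hp0 ((map_eq_zero_iff τ τ.injective).1 h)
  refine ⟨p, hp.1, hp0, fun z hz => by rw [hpn]; exact hmax₁' z hz, ?_⟩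
  refine ⟨(‖τ p‖ ^ 2)⁻¹ • (innerSL ℝ (τ p)).comp (τ : Y →L[ℝ] _), ?_, ?_⟩
  · simp only [smul_apply, ContinuousLinearMap.comp_apply, innerSL_apply_apply]
    change (‖τ p‖ ^ 2)⁻¹ * inner ℝ (τ p) (τ p) = 1
    rw [real_inner_self_eq_norm_sq]
    exact inv_mul_cancel₀ (by positivity)
  · intro z hz hzn hq
    have hzE : z ∈ E := ⟨hz, by rw [mem_ofPred_eq, hzn, hpn]⟩
    have h1 := hmax' z hzE
    have h2 : ‖τ p‖ ^ 2 ≤ |inner ℝ (τ p) (τ z)| := by
      simp only [smul_apply, ContinuousLinearMap.comp_apply, innerSL_apply_apply] at hq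
      change 1 ≤ |(‖τ p‖ ^ 2)⁻¹ * inner ℝ (τ p) (τ z)| at hq
      rw [abs_mul, abs_of_pos (by positivity)] at hq
      have h3 : ‖τ p‖ ^ 2 * 1 ≤ ‖τ p‖ ^ 2 * ((‖τ p‖ ^ 2)⁻¹ * |inner ℝ (τ p) (τ z)|) := by
        gcongr
      rwa [mul_one, ← mul_assoc, mul_inv_cancel₀ (by positivity), one_mul] at h3
    have h3 : ‖τ z‖ ^ 2 ≤ ‖τ p‖ ^ 2 := by gcongr
    rcases le_abs.1 h2 with h4 | h4
    · left
      have h5 : ‖τ z - τ p‖ ^ 2 ≤ 0 := by
        rw [norm_sub_sq_real, real_inner_comm]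
        linarith
      have h6 : τ z - τ p = 0 := by
        have := sq_nonneg ‖τ z - τ p‖
        exact norm_eq_zero.1 ((pow_eq_zero_iff two_ne_zero).1 (le_antisymm h5 this))
      exact τ.injective (sub_eq_zero.1 h6)
    · right
      have h5 : ‖τ z + τ p‖ ^ 2 ≤ 0 := by
        rw [norm_add_sq_real, real_inner_comm]
        linarith
      have h6 : τ z + τ p = 0 := by
        have := sq_nonneg ‖τ z + τ p‖
        exact norm_eq_zero.1 ((pow_eq_zero_iff two_ne_zero).1 (le_antisymm h5 this))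
      apply τ.injective
      rw [map_neg]
      exact eq_neg_of_add_eq_zero_left h6

theorem localisation {C : Set Y} (hC : IsCompact C) {p : Y} (hpC : p ∈ C) (hp0 : p ≠ 0)
    (hmax : ∀ z ∈ C, ‖z‖ ≤ ‖p‖) {q : Y →L[ℝ] ℝ} (hqp : q p = 1)
    (hexp : ∀ z ∈ C, ‖z‖ = ‖p‖ → 1 ≤ |q z| → z = p ∨ z = -p)
    {ν ρ : ℝ} (hν : 0 < ν) (hρ : 0 < ρ) :
    ∃ ε : ℝ, 0 < ε ∧ ‖ε • q.smulRight p‖ < ρ ∧ ∃ r : ℝ, 0 < r ∧ ∀ A : Y →L[ℝ] Y,
      ‖A - (ContinuousLinearMap.id ℝ Y + ε • q.smulRight p)‖ ≤ r →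
      ∀ z ∈ C, (∀ z' ∈ C, ‖A z'‖ ≤ ‖A z‖) → ‖z - p‖ < ν ∨ ‖z + p‖ < ν := by
  set M : ℝ := ‖p‖ with hM
  have hMpos : 0 < M := norm_pos_iff.2 hp0
  set K : Set Y := C ∩ ({z | ν ≤ ‖z - p‖} ∩ {z | ν ≤ ‖z + p‖}) with hK
  have hKc : IsCompact K := by
    refine hC.inter_right (IsClosed.inter ?_ ?_)
    · exact isClosed_le continuous_const (by fun_prop)
    · exact isClosed_le continuous_const (by fun_prop)
  set K₁ : Set Y := K ∩ {z | 1 ≤ |q z|} with hK₁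
  have hK₁c : IsCompact K₁ := hKc.inter_right (isClosed_le continuous_const (by fun_prop))
  obtain ⟨β, hβ, hβK⟩ : ∃ β : ℝ, 0 < β ∧ ∀ z ∈ K₁, ‖z‖ ≤ M - β := by
    rcases K₁.eq_empty_or_nonempty with h | h
    · exact ⟨1, one_pos, by rw [h]; simp⟩
    · obtain ⟨z₁, hz₁, hz₁max⟩ := hK₁c.exists_isMaxOn h continuous_norm.continuousOn
      have h1 : ‖z₁‖ < M := by
        refine lt_of_le_of_ne (hmax z₁ hz₁.1.1) (fun heq => ?_)
        rcases hexp z₁ hz₁.1.1 heq hz₁.2 with h2 | h2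
        · have := hz₁.1.2.1
          rw [mem_ofPred_eq, h2, sub_self, norm_zero] at this
          linarith
        · have := hz₁.1.2.2
          rw [mem_ofPred_eq, h2, neg_add_cancel, norm_zero] at this
          linarith
      exact ⟨M - ‖z₁‖, by linarith, fun z hz => by linarith [show ‖z‖ ≤ ‖z₁‖ from hz₁max hz]⟩
  set D : ℝ := ‖q‖ * M * (M + 1) + 1 with hD
  have hDpos : 0 < D := by positivity
  set ε : ℝ := min β ρ / D with hε
  have hmin : 0 < min β ρ := lt_min hβ hρ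
  have hεpos : 0 < ε := by positivity
  have hεD : ε * D = min β ρ := by rw [hε]; field_simp
  have hqM : 0 ≤ ‖q‖ * M := by positivity
  have hε1 : ε * (‖q‖ * M) < ρ := by
    have h1 : ε * (‖q‖ * M) < ε * D := by
      apply mul_lt_mul_of_pos_left _ hεpos
      rw [hD]; nlinarith
    linarith [min_le_right β ρ]
  have hε2 : ε * (‖q‖ * M * M) < β := by
    have h1 : ε * (‖q‖ * M * M) < ε * D := by
      apply mul_lt_mul_of_pos_left _ hεpos
      rw [hD]; nlinarith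
    linarith [min_le_left β ρ]
  have hqC : ∀ z ∈ C, |q z| ≤ ‖q‖ * M := by
    intro z hz
    calc |q z| = ‖q z‖ := rfl
      _ ≤ ‖q‖ * ‖z‖ := q.le_opNorm z
      _ ≤ ‖q‖ * M := by gcongr; exact hmax z hz
  set A₀ : Y →L[ℝ] Y := ContinuousLinearMap.id ℝ Y + ε • q.smulRight p with hA₀
  have hA₀z : ∀ z, A₀ z = z + (ε * q z) • p := by
    intro z
    simp [hA₀, smul_smul]
  have hA₀K : ∀ z ∈ K, ‖A₀ z‖ < (1 + ε) * M := by
    intro z hz
    have h1 : ‖A₀ z‖ ≤ ‖z‖ + ε * |q z| * M := by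
      rw [hA₀z]
      refine (norm_add_le _ _).trans ?_
      rw [norm_smul, Real.norm_eq_abs, abs_mul, abs_of_pos hεpos]
    rcases lt_or_ge |q z| 1 with h2 | h2
    · have h3 : ε * |q z| * M < ε * 1 * M := by gcongr
      have h4 := hmax z hz.1
      nlinarith
    · have h3 := hβK z ⟨hz, h2⟩
      have h4 : ε * |q z| * M ≤ ε * (‖q‖ * M) * M := by
        gcongr
        exact hqC z hz.1
      have h5 : ε * (‖q‖ * M) * M = ε * (‖q‖ * M * M) := by ring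
      nlinarith
  refine ⟨ε, hεpos, ?_, ?_⟩
  · rw [norm_smul, ContinuousLinearMap.norm_smulRight_apply, Real.norm_of_nonneg hεpos.le]
    exact hε1
  obtain ⟨γ, hγ, hγK⟩ : ∃ γ : ℝ, 0 < γ ∧ ∀ z ∈ K, ‖A₀ z‖ ≤ (1 + ε) * M - γ := by
    rcases K.eq_empty_or_nonempty with h | h
    · exact ⟨1, one_pos, by rw [h]; simp⟩
    · obtain ⟨z₁, hz₁, hz₁max⟩ := hKc.exists_isMaxOn h (f := fun z => ‖A₀ z‖)
        A₀.continuous.norm.continuousOn
      exact ⟨(1 + ε) * M - ‖A₀ z₁‖, by linarith [hA₀K z₁ hz₁],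
        fun z hz => by linarith [show ‖A₀ z‖ ≤ ‖A₀ z₁‖ from hz₁max hz]⟩
  refine ⟨γ / (2 * (M + 1)), by positivity, fun A hA z hz hzmax => ?_⟩
  by_contra hcon
  push Not at hcon
  have hzK : z ∈ K := ⟨hz, hcon.1, hcon.2⟩
  set r : ℝ := γ / (2 * (M + 1)) with hr
  have hrM : 2 * (r * M) < γ := by
    have h1 : 2 * (r * (M + 1)) = γ := by rw [hr]; field_simp
    have hrpos : 0 < r := by positivity
    nlinarith
  have hdiff : ∀ z ∈ C, ‖A z - A₀ z‖ ≤ r * M := by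
    intro z hz
    have h1 : A z - A₀ z = (A - A₀) z := by simp
    rw [h1]
    calc ‖(A - A₀) z‖ ≤ ‖A - A₀‖ * ‖z‖ := (A - A₀).le_opNorm z
      _ ≤ r * M := by
        gcongr
        exact hmax z hz
  have h1 : ‖A z‖ ≤ (1 + ε) * M - γ + r * M := by
    have h2 := hγK z hzK
    have h3 : ‖A z‖ ≤ ‖A₀ z‖ + ‖A z - A₀ z‖ := by
      have : A z = A₀ z + (A z - A₀ z) := by abel
      nth_rewrite 1 [this]
      exact norm_add_le _ _
    linarith [hdiff z hz]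
  have h2 : (1 + ε) * M - r * M ≤ ‖A p‖ := by
    have h3 : ‖A₀ p‖ = (1 + ε) * M := by
      have : A₀ p = (1 + ε) • p := by rw [hA₀z, hqp, mul_one, add_smul, one_smul]
      rw [this, norm_smul, Real.norm_of_nonneg (by positivity)]
    have h4 : ‖A₀ p‖ ≤ ‖A p‖ + ‖A p - A₀ p‖ := by
      have : A₀ p = A p - (A p - A₀ p) := by abel
      nth_rewrite 1 [this]
      exact norm_sub_le _ _
    linarith [hdiff p hpC]
  have h3 := hzmax p hpC
  linarith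

end Pool.Agent.Helper63.PropB
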