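import Mathlib
import Pool.Agent.Helper63.PropB.Chart
import Pool.Agent.Helper63.PropB.Local
import Pool.Agent.Helper63.PropB.CellMeasure

/-!
The set of contact points of small linear perturbations of a compact symmetric set with the
sphere is not null.
-/

namespace Pool.Agent.Helper63.PropB

open Set Metric Filter Topology MeasureTheory Measure
open scoped ENNReal NNReal

universe v

theorem hausdorff_le_of_expand {W : Type*} [MetricSpace W] [MeasurableSpace W]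
    [BorelSpace W] {d : ℝ} (hd : 0 ≤ d) {g : W → W} {s : Set W}
    (h : ∀ m ∈ s, ∀ m' ∈ s, dist m m' ≤ 2 * dist (g m) (g m')) :
    μH[d] s ≤ ((2 : ℝ≥0) : ℝ≥0∞) ^ d * μH[d] (g '' s) := by
  rcases s.eq_empty_or_nonempty with hs | ⟨m₀, hm₀⟩
  · subst hs; simp
  have : Nonempty W := ⟨m₀⟩
  have hinj : InjOn g s := by
    intro m hm m' hm' heq
    have h1 := h m hm m' hm'
    rw [heq, dist_self, mul_zero] at h1
    exact dist_le_zero.1 h1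
  have himg : Function.invFunOn g s '' (g '' s) = s := hinj.invFunOn_image subset_rfl
  have hlip : LipschitzOnWith 2 (Function.invFunOn g s) (g '' s) := by
    refine LipschitzOnWith.of_dist_le_mul ?_
    rintro _ ⟨m, hm, rfl⟩ _ ⟨m', hm', rfl⟩
    rw [hinj.leftInvOn_invFunOn hm, hinj.leftInvOn_invFunOn hm']
    exact h m hm m' hm'
  have h1 := hlip.hausdorffMeasure_image_le hd
  rwa [himg] at h1

section

variable {Y : Type v} [NormedAddCommGroup Y] [NormedSpace ℝ Y]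

theorem exists_bilin [FiniteDimensional ℝ Y] :
    ∃ b : Y →L[ℝ] Y →L[ℝ] ℝ, ∀ u, 100 * ‖u‖ ^ 2 ≤ b u u := by
  set τ := toEuclidean (E := Y) with hτ
  set c : ℝ := 100 * ‖(τ.symm : EuclideanSpace ℝ (Fin (Module.finrank ℝ Y)) →L[ℝ] Y)‖ ^ 2 with hc
  have hc0 : 0 ≤ c := by positivity
  let B : Y →ₗ[ℝ] Y →ₗ[ℝ] ℝ := LinearMap.mk₂ ℝ (fun u v => c * inner ℝ (τ u) (τ v))
    (by intro u u' v; simp only [map_add, inner_add_left]; ring)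
    (by intro a u v; simp only [map_smul, real_inner_smul_left, smul_eq_mul]; ring)
    (by intro u v v'; simp only [map_add, inner_add_right]; ring)
    (by intro a u v; simp only [map_smul, real_inner_smul_right, smul_eq_mul]; ring)
  refine ⟨B.mkContinuous₂ (c * ‖(τ : Y →L[ℝ] EuclideanSpace ℝ (Fin (Module.finrank ℝ Y)))‖ ^ 2) ?_, ?_⟩
  · intro u v
    change ‖c * inner ℝ (τ u) (τ v)‖ ≤ _
    rw [norm_mul, Real.norm_of_nonneg hc0]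
    have h1 : ‖inner ℝ (τ u) (τ v)‖ ≤ ‖τ u‖ * ‖τ v‖ := norm_inner_le_norm _ _
    have h2 : ‖τ u‖ ≤ ‖(τ : Y →L[ℝ] EuclideanSpace ℝ (Fin (Module.finrank ℝ Y)))‖ * ‖u‖ := (τ : Y →L[ℝ] EuclideanSpace ℝ (Fin (Module.finrank ℝ Y))).le_opNorm u
    have h3 : ‖τ v‖ ≤ ‖(τ : Y →L[ℝ] EuclideanSpace ℝ (Fin (Module.finrank ℝ Y)))‖ * ‖v‖ := (τ : Y →L[ℝ] EuclideanSpace ℝ (Fin (Module.finrank ℝ Y))).le_opNorm v
    calc c * ‖inner ℝ (τ u) (τ v)‖ ≤ c * (‖τ u‖ * ‖τ v‖) := by gcongr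
      _ ≤ c * ((‖(τ : Y →L[ℝ] EuclideanSpace ℝ (Fin (Module.finrank ℝ Y)))‖ * ‖u‖) * (‖(τ : Y →L[ℝ] EuclideanSpace ℝ (Fin (Module.finrank ℝ Y)))‖ * ‖v‖)) := by gcongr
      _ = c * ‖(τ : Y →L[ℝ] EuclideanSpace ℝ (Fin (Module.finrank ℝ Y)))‖ ^ 2 * ‖u‖ * ‖v‖ := by ring
  · intro u
    change 100 * ‖u‖ ^ 2 ≤ c * inner ℝ (τ u) (τ u)
    rw [real_inner_self_eq_norm_sq, hc]
    have h1 : ‖u‖ ≤ ‖(τ.symm : EuclideanSpace ℝ (Fin (Module.finrank ℝ Y)) →L[ℝ] Y)‖ * ‖τ u‖ := by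
      calc ‖u‖ = ‖(τ.symm : EuclideanSpace ℝ (Fin (Module.finrank ℝ Y)) →L[ℝ] Y) (τ u)‖ := by simp
        _ ≤ _ := (τ.symm : EuclideanSpace ℝ (Fin (Module.finrank ℝ Y)) →L[ℝ] Y).le_opNorm _
    calc 100 * ‖u‖ ^ 2 ≤ 100 * (‖(τ.symm : EuclideanSpace ℝ (Fin (Module.finrank ℝ Y)) →L[ℝ] Y)‖ * ‖τ u‖) ^ 2 := by gcongr
      _ = _ := by ring

/-- The projection onto `ker w` along `y₀`. -/
noncomputable def proj (w : Y →L[ℝ] ℝ) (y₀ : Y) : Y →L[ℝ] Y :=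
  ContinuousLinearMap.id ℝ Y - w.smulRight y₀

/-- The linear perturbation with parameter `m`. -/
noncomputable def pert (b : Y →L[ℝ] Y →L[ℝ] ℝ) (w : Y →L[ℝ] ℝ) (y₀ m : Y) : Y →L[ℝ] Y :=
  ContinuousLinearMap.id ℝ Y + w.smulRight m + ((b m).comp (proj w y₀)).smulRight y₀

theorem proj_apply (w : Y →L[ℝ] ℝ) (y₀ z : Y) : proj w y₀ z = z - w z • y₀ := by
  simp [proj]

theorem pert_apply (b : Y →L[ℝ] Y →L[ℝ] ℝ) (w : Y →L[ℝ] ℝ) (y₀ m z : Y) :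
    pert b w y₀ m z = z + w z • m + b m (proj w y₀ z) • y₀ := by
  simp [pert]

theorem w_proj {w : Y →L[ℝ] ℝ} {y₀ : Y} (hwy₀ : w y₀ = 1) (z : Y) : w (proj w y₀ z) = 0 := by
  rw [proj_apply, map_sub, map_smul, hwy₀, smul_eq_mul, mul_one, sub_self]

theorem norm_proj_le {w : Y →L[ℝ] ℝ} (hw : ‖w‖ ≤ 1) {y₀ : Y} (hy₀ : ‖y₀‖ ≤ 1) (z : Y) :
    ‖proj w y₀ z‖ ≤ 2 * ‖z‖ := by
  rw [proj_apply]
  have h1 : ‖w z‖ ≤ ‖z‖ := by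
    calc ‖w z‖ ≤ ‖w‖ * ‖z‖ := w.le_opNorm z
      _ ≤ 1 * ‖z‖ := by gcongr
      _ = ‖z‖ := one_mul _
  calc ‖z - w z • y₀‖ ≤ ‖z‖ + ‖w z • y₀‖ := norm_sub_le _ _
    _ = ‖z‖ + ‖w z‖ * ‖y₀‖ := by rw [norm_smul]
    _ ≤ ‖z‖ + ‖z‖ * 1 := by gcongr
    _ = 2 * ‖z‖ := by ring

theorem norm_pert_sub_id_le {b : Y →L[ℝ] Y →L[ℝ] ℝ} {L : ℝ} (hbL : ‖b‖ ≤ L)
    {w : Y →L[ℝ] ℝ} (hw : ‖w‖ ≤ 1) {y₀ : Y} (hy₀ : ‖y₀‖ ≤ 1) (m : Y) :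
    ‖pert b w y₀ m - ContinuousLinearMap.id ℝ Y‖ ≤ (1 + 2 * L) * ‖m‖ := by
  have hL0 : 0 ≤ L := (norm_nonneg b).trans hbL
  refine ContinuousLinearMap.opNorm_le_bound _ (by positivity) (fun z => ?_)
  have h0 : (pert b w y₀ m - ContinuousLinearMap.id ℝ Y) z
      = w z • m + b m (proj w y₀ z) • y₀ := by
    rw [_root_.sub_apply, pert_apply]
    simp only [ContinuousLinearMap.id_apply]
    abel
  rw [h0]
  have h1 : ‖w z‖ ≤ ‖z‖ := by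
    calc ‖w z‖ ≤ ‖w‖ * ‖z‖ := w.le_opNorm z
      _ ≤ 1 * ‖z‖ := by gcongr
      _ = ‖z‖ := one_mul _
  have h2 : ‖b m (proj w y₀ z)‖ ≤ L * ‖m‖ * (2 * ‖z‖) := by
    calc ‖b m (proj w y₀ z)‖ ≤ L * ‖m‖ * ‖proj w y₀ z‖ := bilin_abs_le hbL _ _
      _ ≤ L * ‖m‖ * (2 * ‖z‖) := by
        gcongr
        exact norm_proj_le hw hy₀ z
  calc ‖w z • m + b m (proj w y₀ z) • y₀‖ ≤ ‖w z • m‖ + ‖b m (proj w y₀ z) • y₀‖ :=
        norm_add_le _ _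
    _ = ‖w z‖ * ‖m‖ + ‖b m (proj w y₀ z)‖ * ‖y₀‖ := by rw [norm_smul, norm_smul]
    _ ≤ ‖z‖ * ‖m‖ + L * ‖m‖ * (2 * ‖z‖) * 1 := by gcongr
    _ = (1 + 2 * L) * ‖m‖ * ‖z‖ := by ring

/-- The slope of `y` is a Lipschitz function on the part of the sphere where `w ≥ 1/2`. -/
theorem slope_lipschitz {w : Y →L[ℝ] ℝ} (hw : ‖w‖ ≤ 1) {y₀ : Y} (hy₀ : ‖y₀‖ ≤ 1) {y y' : Y}
    (hy' : ‖y'‖ = 1) (hwy : 1 / 2 ≤ w y) (hwy' : 1 / 2 ≤ w y') :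
    ‖(w y)⁻¹ • proj w y₀ y - (w y')⁻¹ • proj w y₀ y'‖ ≤ 12 * ‖y - y'‖ := by
  have h1 : (w y)⁻¹ • proj w y₀ y - (w y')⁻¹ • proj w y₀ y'
      = (w y)⁻¹ • proj w y₀ (y - y') + ((w y)⁻¹ - (w y')⁻¹) • proj w y₀ y' := by
    rw [map_sub, smul_sub, sub_smul]
    abel
  have hpos : 0 < w y := by linarith
  have hpos' : 0 < w y' := by linarith
  have hinv : (w y)⁻¹ ≤ 2 := by
    rw [inv_le_comm₀ hpos (by norm_num)]; linarith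
  have hinv' : (w y')⁻¹ ≤ 2 := by
    rw [inv_le_comm₀ hpos' (by norm_num)]; linarith
  have hwd : |w y' - w y| ≤ ‖y - y'‖ := by
    calc |w y' - w y| = ‖w (y' - y)‖ := by rw [map_sub]; rfl
      _ ≤ ‖w‖ * ‖y' - y‖ := w.le_opNorm _
      _ ≤ 1 * ‖y' - y‖ := by gcongr
      _ = ‖y - y'‖ := by rw [one_mul, norm_sub_rev]
  have h2 : |(w y)⁻¹ - (w y')⁻¹| ≤ 4 * ‖y - y'‖ := by
    rw [inv_sub_inv hpos.ne' hpos'.ne', div_eq_mul_inv, abs_mul, mul_inv, abs_mul, abs_inv,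
      abs_inv, abs_of_pos hpos, abs_of_pos hpos']
    calc |w y' - w y| * ((w y)⁻¹ * (w y')⁻¹) ≤ ‖y - y'‖ * (2 * 2) := by gcongr
      _ = 4 * ‖y - y'‖ := by ring
  rw [h1]
  calc ‖(w y)⁻¹ • proj w y₀ (y - y') + ((w y)⁻¹ - (w y')⁻¹) • proj w y₀ y'‖
      ≤ ‖(w y)⁻¹ • proj w y₀ (y - y')‖ + ‖((w y)⁻¹ - (w y')⁻¹) • proj w y₀ y'‖ := norm_add_le _ _
    _ = (w y)⁻¹ * ‖proj w y₀ (y - y')‖ + |(w y)⁻¹ - (w y')⁻¹| * ‖proj w y₀ y'‖ := by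
        rw [norm_smul, norm_smul, norm_inv, Real.norm_of_nonneg hpos.le, Real.norm_eq_abs]
    _ ≤ 2 * (2 * ‖y - y'‖) + 4 * ‖y - y'‖ * (2 * ‖y'‖) := by
        gcongr
        · exact norm_proj_le hw hy₀ _
        · exact norm_proj_le hw hy₀ _
    _ = 12 * ‖y - y'‖ := by rw [hy']; ring

end

end Pool.Agent.Helper63.PropB
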