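import Mathlib
import Pool.Agent.Helper63.PropB.Contact

/-!
The set of contact points of small linear perturbations of a compact symmetric set with the
sphere is not null: the proof.
-/

namespace Pool.Agent.Helper63.PropB

open Set Metric Filter Topology MeasureTheory Measure
open scoped ENNReal NNReal

universe v

variable {Y : Type v} [NormedAddCommGroup Y] [NormedSpace ℝ Y]

theorem pert_eq_smul_shiftPt {b : Y →L[ℝ] Y →L[ℝ] ℝ} {w : Y →L[ℝ] ℝ} {y₀ : Y}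
    (m : Y) {z : Y} (hz : 0 < w z) :
    pert b w y₀ m z = w z • shiftPt b y₀ ((w z)⁻¹ • proj w y₀ z) m := by
  rw [pert_apply, shiftPt, map_smul]
  have h1 : w z • (1 + (w z)⁻¹ • b m (proj w y₀ z)) • y₀
      = w z • y₀ + b m (proj w y₀ z) • y₀ := by
    rw [smul_smul, mul_add, mul_one, smul_eq_mul, ← mul_assoc, mul_inv_cancel₀ hz.ne', one_mul,
      add_smul]
  rw [smul_add, h1, smul_add, smul_smul, mul_inv_cancel₀ hz.ne', one_smul]
  nth_rewrite 1 [show z = w z • y₀ + proj w y₀ z by rw [proj_apply]; abel]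
  abel

theorem w_pert {b : Y →L[ℝ] Y →L[ℝ] ℝ} {w : Y →L[ℝ] ℝ} {y₀ : Y} (hwy₀ : w y₀ = 1)
    {m : Y} (hwm : w m = 0) (z : Y) :
    w (pert b w y₀ m z) = w z + b m (proj w y₀ z) := by
  rw [pert_apply, map_add, map_add, map_smul, map_smul, hwm, hwy₀]
  simp

theorem proj_pert {b : Y →L[ℝ] Y →L[ℝ] ℝ} {w : Y →L[ℝ] ℝ} {y₀ : Y} (hwy₀ : w y₀ = 1)
    {m : Y} (hwm : w m = 0) (z : Y) :
    proj w y₀ (pert b w y₀ m z) = proj w y₀ z + w z • m := by
  rw [proj_apply, w_pert hwy₀ hwm, pert_apply, proj_apply]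
  module

/-- The separation property of the maps `m ↦ slope of (pert m) z`. -/
theorem separation {b : Y →L[ℝ] Y →L[ℝ] ℝ}
    (hpos : ∀ u, 100 * ‖u‖ ^ 2 ≤ b u u) {L ν : ℝ} (hbL : ‖b‖ ≤ L) (hL : 100 ≤ L)
    (hν0 : 0 ≤ ν) (hν : 24 * (L * ν) ≤ 1) {w : Y →L[ℝ] ℝ} (hw : ‖w‖ ≤ 1) {y₀ : Y}
    (hy₀ : ‖y₀‖ ≤ 1) (hwy₀ : w y₀ = 1) {m m' z z' : Y} (hm : ‖m‖ ≤ ν) (hm' : ‖m'‖ ≤ ν)
    (hms : (1 + 2 * L) * ‖m‖ < 1) (hwm : w m = 0)
    (hwz : 0 < w z) (hwz' : 0 < w z') (hz : ‖proj w y₀ z‖ ≤ ν * w z)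
    (hz' : ‖proj w y₀ z'‖ ≤ ν * w z')
    (h1 : ‖pert b w y₀ m z'‖ ≤ ‖pert b w y₀ m z‖)
    (h2 : ‖pert b w y₀ m' z‖ ≤ ‖pert b w y₀ m' z'‖)
    (hS : (w z + b m (proj w y₀ z))⁻¹ • (proj w y₀ z + w z • m)
      = (w z' + b m' (proj w y₀ z'))⁻¹ • (proj w y₀ z' + w z' • m')) : z = z' := by
  set σ : Y := (w z)⁻¹ • proj w y₀ z with hσdef
  set σ' : Y := (w z')⁻¹ • proj w y₀ z' with hσdef'
  have hσ : ‖σ‖ ≤ ν := by
    rw [hσdef, norm_smul, norm_inv, Real.norm_of_nonneg hwz.le, inv_mul_le_iff₀ hwz]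
    linarith
  have hσ' : ‖σ'‖ ≤ ν := by
    rw [hσdef', norm_smul, norm_inv, Real.norm_of_nonneg hwz'.le, inv_mul_le_iff₀ hwz']
    linarith
  have hwσ : w σ = 0 := by rw [hσdef, map_smul, w_proj hwy₀, smul_zero]
  have hL0 : 0 ≤ L := by linarith
  have hLν : L * ν ≤ 1 / 24 := by linarith
  have hνs : ν ≤ 1 / 2400 := by nlinarith
  have hb1 : ∀ {u v : Y}, ‖u‖ ≤ ν → ‖v‖ ≤ ν → |b u v| ≤ ν / 24 := by
    intro u v hu hv
    calc |b u v| ≤ L * ‖u‖ * ‖v‖ := bilin_abs_le hbL u v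
      _ ≤ L * ν * ν := by gcongr
      _ ≤ 1 / 24 * ν := by gcongr
      _ = ν / 24 := by ring
  have hc1 := abs_le.1 (hb1 hm hσ)
  have hc1' := abs_le.1 (hb1 hm' hσ')
  have hc : 0 < 1 + b m σ := by linarith
  have hc' : 0 < 1 + b m' σ' := by linarith
  have hπ : proj w y₀ z = w z • σ := by
    rw [hσdef, smul_smul, mul_inv_cancel₀ hwz.ne', one_smul]
  have hπ' : proj w y₀ z' = w z' • σ' := by
    rw [hσdef', smul_smul, mul_inv_cancel₀ hwz'.ne', one_smul]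
  have hSl : (w z + b m (proj w y₀ z))⁻¹ • (proj w y₀ z + w z • m)
      = (1 + b m σ)⁻¹ • (σ + m) := by
    rw [hπ, map_smul, smul_eq_mul, ← smul_add, smul_smul]
    congr 1
    field_simp
  have hSr : (w z' + b m' (proj w y₀ z'))⁻¹ • (proj w y₀ z' + w z' • m')
      = (1 + b m' σ')⁻¹ • (σ' + m') := by
    rw [hπ', map_smul, smul_eq_mul, ← smul_add, smul_smul]
    congr 1
    field_simp
  have hS2 : (1 + b m σ)⁻¹ • (σ + m) = (1 + b m' σ')⁻¹ • (σ' + m') := by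
    rw [← hSl, ← hSr, hS]
  have hS3 : (1 + b m' σ') • (σ + m) = (1 + b m σ) • (σ' + m') := by
    have h3 : (σ + m) = (1 + b m σ) • ((1 + b m σ)⁻¹ • (σ + m)) := by
      rw [smul_smul, mul_inv_cancel₀ hc.ne', one_smul]
    rw [h3, hS2, smul_comm (1 + b m' σ'), smul_smul (1 + b m' σ'), mul_inv_cancel₀ hc'.ne',
      one_smul]
  have hp1 : ‖pert b w y₀ m z‖ = w z * ‖shiftPt b y₀ σ m‖ := by
    rw [pert_eq_smul_shiftPt m hwz, norm_smul, Real.norm_of_nonneg hwz.le]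
  have hp2 : ‖pert b w y₀ m z'‖ = w z' * ‖shiftPt b y₀ σ' m‖ := by
    rw [pert_eq_smul_shiftPt m hwz', norm_smul, Real.norm_of_nonneg hwz'.le]
  have hp3 : ‖pert b w y₀ m' z‖ = w z * ‖shiftPt b y₀ σ m'‖ := by
    rw [pert_eq_smul_shiftPt m' hwz, norm_smul, Real.norm_of_nonneg hwz.le]
  have hp4 : ‖pert b w y₀ m' z'‖ = w z' * ‖shiftPt b y₀ σ' m'‖ := by
    rw [pert_eq_smul_shiftPt m' hwz', norm_smul, Real.norm_of_nonneg hwz'.le]
  have hN : ‖shiftPt b y₀ σ' m‖ * ‖shiftPt b y₀ σ m'‖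
      ≤ ‖shiftPt b y₀ σ m‖ * ‖shiftPt b y₀ σ' m'‖ := by
    rw [hp1, hp2] at h1
    rw [hp3, hp4] at h2
    have h3 : (w z' * ‖shiftPt b y₀ σ' m‖) * (w z * ‖shiftPt b y₀ σ m'‖)
        ≤ (w z * ‖shiftPt b y₀ σ m‖) * (w z' * ‖shiftPt b y₀ σ' m'‖) := by
      exact mul_le_mul h1 h2 (by positivity) (by positivity)
    have h4 : (w z * w z') * (‖shiftPt b y₀ σ' m‖ * ‖shiftPt b y₀ σ m'‖)
        ≤ (w z * w z') * (‖shiftPt b y₀ σ m‖ * ‖shiftPt b y₀ σ' m'‖) := by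
      calc _ = (w z' * ‖shiftPt b y₀ σ' m‖) * (w z * ‖shiftPt b y₀ σ m'‖) := by ring
        _ ≤ _ := h3
        _ = _ := by ring
    exact le_of_mul_le_mul_left h4 (by positivity)
  have hmm : m = m' :=
    key_inj hpos hbL hL hν0 hν hw hy₀ hwy₀ hσ hσ' hm hm' hwσ hwm hS3 hN
  subst hmm
  -- now `z` and `z'` have the same image
  have hwp : w (pert b w y₀ m z) = w z + b m (proj w y₀ z) := w_pert hwy₀ hwm z
  have hwp' : w (pert b w y₀ m z') = w z' + b m (proj w y₀ z') := w_pert hwy₀ hwm z'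
  have hpp : 0 < w (pert b w y₀ m z) := by
    have : w (pert b w y₀ m z) = w z * (1 + b m σ) := by
      rw [hwp, hπ, map_smul, smul_eq_mul]; ring
    rw [this]; positivity
  have hpp' : 0 < w (pert b w y₀ m z') := by
    have : w (pert b w y₀ m z') = w z' * (1 + b m σ') := by
      rw [hwp', hπ', map_smul, smul_eq_mul]; ring
    rw [this]; positivity
  set x : Y := (w (pert b w y₀ m z))⁻¹ • proj w y₀ (pert b w y₀ m z) with hx
  have hx' : x = (w (pert b w y₀ m z'))⁻¹ • proj w y₀ (pert b w y₀ m z') := by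
    rw [hx, proj_pert hwy₀ hwm, proj_pert hwy₀ hwm, hwp, hwp']
    exact hS
  have hdec : pert b w y₀ m z = w (pert b w y₀ m z) • (y₀ + x) := by
    rw [smul_add, hx, smul_smul, mul_inv_cancel₀ hpp.ne', one_smul, proj_apply]
    abel
  have hdec' : pert b w y₀ m z' = w (pert b w y₀ m z') • (y₀ + x) := by
    rw [smul_add, hx', smul_smul, mul_inv_cancel₀ hpp'.ne', one_smul, proj_apply]
    abel
  have hnorm : ‖pert b w y₀ m z‖ = ‖pert b w y₀ m z'‖ := le_antisymm h2 h1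
  have hyx : 0 < ‖y₀ + x‖ := by
    rw [norm_pos_iff]
    intro h0
    rw [h0, smul_zero] at hdec
    rw [hdec, map_zero] at hpp
    exact lt_irrefl _ hpp
  have hweq : w (pert b w y₀ m z) = w (pert b w y₀ m z') := by
    rw [hdec, hdec', norm_smul, norm_smul, Real.norm_of_nonneg hpp.le,
      Real.norm_of_nonneg hpp'.le] at hnorm
    exact mul_right_cancel₀ hyx.ne' hnorm
  have heq : pert b w y₀ m z = pert b w y₀ m z' := by
    rw [hdec, hdec', hweq]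
  -- injectivity of `pert`
  have h5 : z - z' = -((pert b w y₀ m - ContinuousLinearMap.id ℝ Y) (z - z')) := by
    rw [_root_.sub_apply, map_sub, heq]
    simp
  have h6 : ‖z - z'‖ ≤ (1 + 2 * L) * ‖m‖ * ‖z - z'‖ := by
    nth_rewrite 1 [h5]
    rw [norm_neg]
    calc ‖(pert b w y₀ m - ContinuousLinearMap.id ℝ Y) (z - z')‖
        ≤ ‖pert b w y₀ m - ContinuousLinearMap.id ℝ Y‖ * ‖z - z'‖ :=
          ContinuousLinearMap.le_opNorm _ _
      _ ≤ (1 + 2 * L) * ‖m‖ * ‖z - z'‖ := by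
          gcongr
          exact norm_pert_sub_id_le hbL hw hy₀ m
  have h7 : ‖z - z'‖ ≤ 0 := by
    by_contra h
    push Not at h
    have : (1 + 2 * L) * ‖m‖ * ‖z - z'‖ < 1 * ‖z - z'‖ := by gcongr
    linarith
  exact sub_eq_zero.1 (norm_le_zero_iff.1 h7)

end Pool.Agent.Helper63.PropB
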