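import Mathlib
import Pool.Agent.Helper63.PropB.ContactMain

/-!
The set of contact points of small linear perturbations of a compact symmetric set with the
sphere is not null: the end of the proof.
-/

namespace Pool.Agent.Helper63.PropB

open Set Metric Filter Topology MeasureTheory Measure
open scoped ENNReal NNReal

universe v

variable {Y : Type v} [NormedAddCommGroup Y] [NormedSpace ℝ Y]

theorem contact_not_null [FiniteDimensional ℝ Y] [MeasurableSpace Y] [BorelSpace Y]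
    {C : Set Y} (hC : IsCompact C) (hsym : ∀ z ∈ C, -z ∈ C) (hne : ∃ z ∈ C, z ≠ 0)
    {ρ : ℝ} (hρ : 0 < ρ) :
    μH[(Module.finrank ℝ Y : ℝ) - 1] {y : Y | ‖y‖ = 1 ∧ ∃ A : Y →L[ℝ] Y,
      ‖A - ContinuousLinearMap.id ℝ Y‖ < ρ ∧ ∃ z ∈ C, A z = ‖A z‖ • y ∧
      ∀ z' ∈ C, ‖A z'‖ ≤ ‖A z‖} ≠ 0 := by
  intro hnull
  set G : Set Y := {y : Y | ‖y‖ = 1 ∧ ∃ A : Y →L[ℝ] Y,
      ‖A - ContinuousLinearMap.id ℝ Y‖ < ρ ∧ ∃ z ∈ C, A z = ‖A z‖ • y ∧
      ∀ z' ∈ C, ‖A z'‖ ≤ ‖A z‖} with hG
  obtain ⟨p, hpC, hp0, hmax, q, hqp, hexp⟩ := exists_exposed hC hne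
  set M : ℝ := ‖p‖ with hMdef
  have hM : 0 < M := norm_pos_iff.2 hp0
  set y₀ : Y := M⁻¹ • p with hy₀def
  have hy₀ : ‖y₀‖ = 1 := by
    rw [hy₀def, norm_smul, norm_inv, Real.norm_of_nonneg hM.le, ← hMdef, inv_mul_cancel₀ hM.ne']
  have hpy₀ : p = M • y₀ := by rw [hy₀def, smul_smul, mul_inv_cancel₀ hM.ne', one_smul]
  have hy₀ne : y₀ ≠ 0 := by
    intro h
    rw [h, norm_zero] at hy₀
    exact zero_ne_one hy₀
  obtain ⟨w, hwn, hwy⟩ := exists_dual_vector ℝ y₀ (norm_ne_zero_iff.2 hy₀ne)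
  have hw : ‖w‖ ≤ 1 := hwn.le
  have hwy₀ : w y₀ = 1 := by
    have : w y₀ = ‖y₀‖ := by simpa using hwy
    rw [this, hy₀]
  have hwp : w p = M := by rw [hpy₀, map_smul, hwy₀, smul_eq_mul, mul_one]
  obtain ⟨b, hb⟩ := exists_bilin (Y := Y)
  set L : ℝ := max ‖b‖ 100 with hL
  have hbL : ‖b‖ ≤ L := le_max_left _ _
  have hL100 : 100 ≤ L := le_max_right _ _
  have hL0 : 0 < L := by linarith
  set ν : ℝ := (24 * L)⁻¹ with hν
  have hνpos : 0 < ν := by positivity
  have hνL : 24 * (L * ν) ≤ 1 := by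
    rw [← mul_assoc, hν, mul_inv_cancel₀ (by positivity)]
  have hνs : ν ≤ 1 / 2400 := by nlinarith
  set ρ₁ : ℝ := min (ρ / 2) 1 with hρ₁
  have hρ₁pos : 0 < ρ₁ := lt_min (by linarith) one_pos
  obtain ⟨ε, hε, hεn, r, hr, hloc⟩ := localisation hC hpC hp0 hmax hqp hexp
    (ν := ν * M / 8) (ρ := ρ₁) (by positivity) hρ₁pos
  set A₀ : Y →L[ℝ] Y := ContinuousLinearMap.id ℝ Y + ε • q.smulRight p with hA₀
  have hA₀n : ‖A₀‖ ≤ 2 := by
    refine (norm_add_le _ _).trans ?_
    have h1 := ContinuousLinearMap.norm_id_le (𝕜 := ℝ) (E := Y)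
    have h2 : ρ₁ ≤ 1 := min_le_right _ _
    linarith
  have hA₀p : A₀ p = (1 + ε) • p := by
    simp [hA₀, hqp, add_smul]
  set K : ℝ := (1 + 2 * L) * 2 with hK
  have hKpos : 0 < K := by positivity
  set rm : ℝ := min ν (min (r / K) (min (ρ / (2 * K)) (1 / (2 * K)))) with hrm
  have hrmpos : 0 < rm := by
    refine lt_min hνpos (lt_min (by positivity) (lt_min (by positivity) (by positivity)))
  have hrm1 : rm ≤ ν := min_le_left _ _
  have hrm2 : K * rm ≤ r := by
    have h1 : rm ≤ r / K := (min_le_right _ _).trans (min_le_left _ _)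
    calc K * rm ≤ K * (r / K) := by gcongr
      _ = r := by field_simp
  have hrm3 : K * rm ≤ ρ / 2 := by
    have h1 : rm ≤ ρ / (2 * K) :=
      (min_le_right _ _).trans ((min_le_right _ _).trans (min_le_left _ _))
    calc K * rm ≤ K * (ρ / (2 * K)) := by gcongr
      _ = ρ / 2 := by field_simp
  have hrm4 : K * rm ≤ 1 / 2 := by
    have h1 : rm ≤ 1 / (2 * K) :=
      (min_le_right _ _).trans ((min_le_right _ _).trans (min_le_right _ _))
    calc K * rm ≤ K * (1 / (2 * K)) := by gcongr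
      _ = 1 / 2 := by field_simp
  -- the subspace `ker w`
  set W : Submodule ℝ Y := LinearMap.ker w.toLinearMap with hW
  have hWmem : ∀ m : W, w m = 0 := fun m => m.2
  have hfin : (Module.finrank ℝ W : ℝ) = (Module.finrank ℝ Y : ℝ) - 1 := by
    have h1 := LinearMap.finrank_range_add_finrank_ker w.toLinearMap
    have h2 : LinearMap.range w.toLinearMap = ⊤ := by
      rw [LinearMap.range_eq_top]
      intro t
      refine ⟨t • y₀, ?_⟩
      change w (t • y₀) = t
      rw [map_smul, hwy₀, smul_eq_mul, mul_one]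
    rw [h2, finrank_top, Module.finrank_self] at h1
    rw [← h1]
    push_cast
    ring
  set πW : Y →L[ℝ] W := (proj w y₀).codRestrict W (fun z => w_proj hwy₀ z) with hπW
  have hπWc : ∀ z, ((πW z : W) : Y) = proj w y₀ z := fun z => rfl
  -- the two families of functions
  set f : W → Y → ℝ := fun m z => ‖pert b w y₀ m z‖ with hf
  set S : W → Y → W := fun m z => (w z + b m (proj w y₀ z))⁻¹ • (πW z + w z • m) with hSdef
  have hScoe : ∀ m z, ((S m z : W) : Y)
      = (w z + b m (proj w y₀ z))⁻¹ • (proj w y₀ z + w z • (m : Y)) := fun m z => rfl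
  have hfc : Continuous fun x : W × Y => f x.1 x.2 := by
    have h1 : (fun x : W × Y => f x.1 x.2) = fun x : W × Y =>
        ‖x.2 + w x.2 • (x.1 : Y) + (b (x.1 : Y)) (proj w y₀ x.2) • y₀‖ := by
      funext x
      simp only [hf, pert_apply]
    rw [h1]
    fun_prop
  set U : Set W := closedBall (0 : W) rm with hU
  have hUc : IsCompact U := isCompact_closedBall _ _
  have hUm : ∀ m ∈ U, ‖(m : Y)‖ ≤ rm := fun m hm => mem_closedBall_zero_iff.1 hm
  set Q : Set Y := (A₀ '' C) ∩ ({z | M / 2 ≤ w z} ∩ {z | ‖proj w y₀ z‖ ≤ ν * w z}) with hQ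
  have hQc : IsCompact Q := by
    refine (hC.image A₀.continuous).inter_right (IsClosed.inter ?_ ?_)
    · exact isClosed_le continuous_const w.continuous
    · exact isClosed_le (proj w y₀).continuous.norm (continuous_const.mul w.continuous)
  have hbsmall : ∀ m ∈ U, ∀ z ∈ Q, |b m (proj w y₀ z)| ≤ w z / 24 := by
    intro m hm z hz
    have hwz : 0 < w z := by
      have := hz.2.1
      rw [mem_ofPred_eq] at this
      linarith
    calc |b m (proj w y₀ z)| ≤ L * ‖(m : Y)‖ * ‖proj w y₀ z‖ := bilin_abs_le hbL _ _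
      _ ≤ L * ν * (1 * w z) := by
          gcongr
          · exact (hUm m hm).trans hrm1
          · have h3 : ‖proj w y₀ z‖ ≤ ν * w z := hz.2.2
            refine h3.trans ?_
            gcongr
            linarith
      _ ≤ (1 / 24) * (1 * w z) := by
          gcongr
          linarith
      _ = w z / 24 := by ring
  have hden : ∀ m ∈ U, ∀ z ∈ Q, 0 < w z + b m (proj w y₀ z) := by
    intro m hm z hz
    have hwz : 0 < w z := by
      have := hz.2.1
      rw [mem_ofPred_eq] at this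
      linarith
    have := (abs_le.1 (hbsmall m hm z hz)).1
    linarith
  have hSc : ContinuousOn (fun x : W × Y => S x.1 x.2) (U ×ˢ Q) := by
    have h1 : ContinuousOn (fun x : W × Y => (w x.2 + b (x.1 : Y) (proj w y₀ x.2))⁻¹)
        (U ×ˢ Q) := by
      refine ContinuousOn.inv₀ ?_ ?_
      · exact Continuous.continuousOn (by fun_prop)
      · rintro ⟨m, z⟩ ⟨hm, hz⟩
        exact (hden m hm z hz).ne'
    have h2 : ContinuousOn (fun x : W × Y => πW x.2 + w x.2 • x.1) (U ×ˢ Q) :=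
      Continuous.continuousOn (by fun_prop)
    exact h1.smul h2
  -- location of the maximizers
  have hmaxQ : ∀ m ∈ U, ∀ z ∈ C, (∀ z' ∈ C, ‖pert b w y₀ m (A₀ z')‖ ≤ ‖pert b w y₀ m (A₀ z)‖) →
      ∃ z₁ ∈ Q, ‖pert b w y₀ m z₁‖ = ‖pert b w y₀ m (A₀ z)‖ := by
    intro m hm z hz hzmax
    have hAA : ‖(pert b w y₀ m).comp A₀ - A₀‖ ≤ r := by
      have h1 : (pert b w y₀ m).comp A₀ - A₀
          = (pert b w y₀ m - ContinuousLinearMap.id ℝ Y).comp A₀ := by
        ext x; simp
      rw [h1]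
      calc ‖(pert b w y₀ m - ContinuousLinearMap.id ℝ Y).comp A₀‖
          ≤ ‖pert b w y₀ m - ContinuousLinearMap.id ℝ Y‖ * ‖A₀‖ :=
            ContinuousLinearMap.opNorm_comp_le _ _
        _ ≤ ((1 + 2 * L) * rm) * 2 := by
            gcongr
            refine (norm_pert_sub_id_le hbL hw hy₀.le _).trans ?_
            gcongr
            exact hUm m hm
        _ = K * rm := by rw [hK]; ring
        _ ≤ r := hrm2
    have hnear : ∀ z ∈ C, ‖z - p‖ < ν * M / 8 → A₀ z ∈ Q := by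
      intro z hz hzp
      have h1 : ‖A₀ z - (1 + ε) • p‖ ≤ ν * M / 4 := by
        rw [← hA₀p, ← map_sub]
        calc ‖A₀ (z - p)‖ ≤ ‖A₀‖ * ‖z - p‖ := A₀.le_opNorm _
          _ ≤ 2 * (ν * M / 8) := by gcongr
          _ = ν * M / 4 := by ring
      have h2 : |w (A₀ z) - (1 + ε) * M| ≤ ν * M / 4 := by
        have h3 : w (A₀ z) - (1 + ε) * M = w (A₀ z - (1 + ε) • p) := by
          rw [map_sub, map_smul, hwp, smul_eq_mul]
        rw [h3]
        calc |w (A₀ z - (1 + ε) • p)| = ‖w (A₀ z - (1 + ε) • p)‖ := rfl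
          _ ≤ ‖w‖ * ‖A₀ z - (1 + ε) • p‖ := w.le_opNorm _
          _ ≤ 1 * (ν * M / 4) := by gcongr
          _ = ν * M / 4 := one_mul _
      have h3 : M / 2 ≤ w (A₀ z) := by
        have h4 := (abs_le.1 h2).1
        have h5 : ν * M / 4 ≤ (1 / 2400) * M / 4 := by gcongr
        nlinarith
      refine ⟨⟨z, hz, rfl⟩, h3, ?_⟩
      have h4 : proj w y₀ (A₀ z) = proj w y₀ (A₀ z - (1 + ε) • p) := by
        rw [map_sub, map_smul]
        have h5 : proj w y₀ p = 0 := by
          rw [proj_apply, hwp, ← hpy₀, sub_self]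
        rw [h5, smul_zero, sub_zero]
      rw [mem_ofPred_eq, h4]
      calc ‖proj w y₀ (A₀ z - (1 + ε) • p)‖ ≤ 2 * ‖A₀ z - (1 + ε) • p‖ :=
            norm_proj_le hw hy₀.le _
        _ ≤ 2 * (ν * M / 4) := by gcongr
        _ = ν * (M / 2) := by ring
        _ ≤ ν * w (A₀ z) := by gcongr
    rcases hloc _ hAA z hz hzmax with h | h
    · exact ⟨A₀ z, hnear z hz h, rfl⟩
    · refine ⟨A₀ (-z), hnear (-z) (hsym z hz) ?_, ?_⟩
      · have : -z - p = -(z + p) := by abel
        rw [this, norm_neg]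
        exact h
      · rw [map_neg, map_neg, norm_neg]
  have hcompmax : ∀ m : W, ∃ z ∈ C, ∀ z' ∈ C,
      ‖pert b w y₀ m (A₀ z')‖ ≤ ‖pert b w y₀ m (A₀ z)‖ := by
    intro m
    obtain ⟨z, hz, hzm⟩ := hC.exists_isMaxOn ⟨p, hpC⟩
      (f := fun z => ‖pert b w y₀ m (A₀ z)‖)
      (Continuous.continuousOn ((pert b w y₀ m).continuous.comp A₀.continuous).norm)
    exact ⟨z, hz, fun z' hz' => hzm hz'⟩
  have hQne : Q.Nonempty := by
    obtain ⟨z, hz, hzm⟩ := hcompmax 0
    obtain ⟨z₁, hz₁, -⟩ := hmaxQ 0 (mem_closedBall_self hrmpos.le) z hz hzm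
    exact ⟨z₁, hz₁⟩
  -- the estimate
  have hk0 : (0 : ℝ) ≤ (Module.finrank ℝ W : ℝ) := Nat.cast_nonneg _
  have hmain := measure_le_contact (μ := (μH[(Module.finrank ℝ W : ℝ)] : Measure W))
    hUc hQc hQne hfc hSc (c := ((2 : ℝ≥0) : ℝ≥0∞) ^ (Module.finrank ℝ W : ℝ))
    (ENNReal.rpow_ne_top_of_nonneg hk0 ENNReal.coe_ne_top)
    (by
      intro z hz s hs
      have hwz : 0 < w z := by
        have := hz.2.1
        rw [mem_ofPred_eq] at this
        linarith
      refine hausdorff_le_of_expand hk0 (fun m hm m' hm' => ?_)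
      have hden1 := hden m (hs hm) z hz
      have hden2 := hden m' (hs hm') z hz
      set σ : Y := (w z)⁻¹ • proj w y₀ z with hσdef
      have hπ : proj w y₀ z = w z • σ := by
        rw [hσdef, smul_smul, mul_inv_cancel₀ hwz.ne', one_smul]
      have hσ : ‖σ‖ ≤ ν := by
        rw [hσdef, norm_smul, norm_inv, Real.norm_of_nonneg hwz.le, inv_mul_le_iff₀ hwz]
        have h3 : ‖proj w y₀ z‖ ≤ ν * w z := hz.2.2
        linarith
      have hrew : ∀ m : W, m ∈ U → ((S m z : W) : Y) = (1 + b m σ)⁻¹ • (σ + (m : Y)) := by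
        intro m hm
        have h0 := hden m hm z hz
        rw [hScoe, hπ, map_smul, smul_eq_mul, ← smul_add, smul_smul]
        rw [hπ, map_smul, smul_eq_mul] at h0
        have h1 : 0 < 1 + b m σ := by
          have h2 : w z + w z * b m σ = w z * (1 + b m σ) := by ring
          rw [h2] at h0
          exact (mul_pos_iff_of_pos_left hwz).1 h0
        congr 1
        field_simp
      rw [dist_eq_norm, dist_eq_norm]
      change ‖((m - m' : W) : Y)‖ ≤ 2 * ‖((S m z - S m' z : W) : Y)‖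
      rw [Submodule.coe_sub, Submodule.coe_sub, hrew m (hs hm), hrew m' (hs hm')]
      exact chart_expands hbL hL100 hνpos.le hνL hσ ((hUm m (hs hm)).trans hrm1)
        ((hUm m' (hs hm')).trans hrm1))
    (by
      intro m hm m' hm' z hz z' hz' h1 h2 hS
      have hwz : 0 < w z := by
        have := hz.2.1
        rw [mem_ofPred_eq] at this
        linarith
      have hwz' : 0 < w z' := by
        have := hz'.2.1
        rw [mem_ofPred_eq] at this
        linarith
      refine separation hb hbL hL100 hνpos.le hνL hw hy₀.le hwy₀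
        ((hUm m hm).trans hrm1) ((hUm m' hm').trans hrm1) ?_ (hWmem m) hwz hwz' hz.2.2 hz'.2.2
        h1 h2 ?_
      · have h3 : (1 + 2 * L) * ‖(m : Y)‖ ≤ (1 + 2 * L) * rm := by
          gcongr
          exact hUm m hm
        have h4 : (1 + 2 * L) * rm * 2 ≤ 1 / 2 := by
          calc (1 + 2 * L) * rm * 2 = K * rm := by rw [hK]; ring
            _ ≤ 1 / 2 := hrm4
        linarith
      · have h3 : ((S m z : W) : Y) = ((S m' z' : W) : Y) := by rw [hS]
        rwa [hScoe, hScoe] at h3)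
  -- the contact set in the chart is null
  set X : Set W := {x | ∃ m ∈ U, ∃ k ∈ Q, (∀ k' ∈ Q, f m k' ≤ f m k) ∧ S m k = x} with hX
  have hXsub : X ⊆ (fun y => (w y)⁻¹ • πW y) '' (G ∩ {y | 1 / 2 ≤ w y}) := by
    rintro x ⟨m, hm, z, hz, hzmax, rfl⟩
    have hwz : 0 < w z := by
      have := hz.2.1
      rw [mem_ofPred_eq] at this
      linarith
    obtain ⟨z₁, hz₁C, hz₁⟩ := hz.1
    set A : Y →L[ℝ] Y := (pert b w y₀ m).comp A₀ with hA
    have hwB : w (pert b w y₀ m z) = w z + b m (proj w y₀ z) := w_pert hwy₀ (hWmem m) z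
    have hwBpos : 0 < w (pert b w y₀ m z) := by rw [hwB]; exact hden m hm z hz
    have hBne : 0 < ‖pert b w y₀ m z‖ := by
      rw [norm_pos_iff]
      intro h0
      rw [h0, map_zero] at hwBpos
      exact lt_irrefl _ hwBpos
    set y : Y := ‖pert b w y₀ m z‖⁻¹ • pert b w y₀ m z with hy
    have hyn : ‖y‖ = 1 := by
      rw [hy, norm_smul, norm_inv, norm_norm, inv_mul_cancel₀ hBne.ne']
    have hwy' : w y = ‖pert b w y₀ m z‖⁻¹ * w (pert b w y₀ m z) := by
      rw [hy, map_smul, smul_eq_mul]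
    refine ⟨y, ⟨⟨hyn, A, ?_, z₁, hz₁C, ?_, ?_⟩, ?_⟩, ?_⟩
    · -- `A` is close to the identity
      have h1 : A - ContinuousLinearMap.id ℝ Y
          = (pert b w y₀ m - ContinuousLinearMap.id ℝ Y).comp A₀ + ε • q.smulRight p := by
        ext x
        simp [hA, hA₀]
        module
      rw [h1]
      have h2 : ‖(pert b w y₀ m - ContinuousLinearMap.id ℝ Y).comp A₀‖ ≤ ρ / 2 := by
        calc ‖(pert b w y₀ m - ContinuousLinearMap.id ℝ Y).comp A₀‖
            ≤ ‖pert b w y₀ m - ContinuousLinearMap.id ℝ Y‖ * ‖A₀‖ :=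
              ContinuousLinearMap.opNorm_comp_le _ _
          _ ≤ ((1 + 2 * L) * rm) * 2 := by
              gcongr
              refine (norm_pert_sub_id_le hbL hw hy₀.le _).trans ?_
              gcongr
              exact hUm m hm
          _ = K * rm := by rw [hK]; ring
          _ ≤ ρ / 2 := hrm3
      have h3 : ρ₁ ≤ ρ / 2 := min_le_left _ _
      calc ‖(pert b w y₀ m - ContinuousLinearMap.id ℝ Y).comp A₀ + ε • q.smulRight p‖
          ≤ ‖(pert b w y₀ m - ContinuousLinearMap.id ℝ Y).comp A₀‖ + ‖ε • q.smulRight p‖ :=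
            norm_add_le _ _
        _ < ρ := by linarith
    · have h1 : A z₁ = pert b w y₀ m z := by rw [hA, ContinuousLinearMap.comp_apply, hz₁]
      rw [h1, hy, smul_smul, mul_inv_cancel₀ hBne.ne', one_smul]
    · intro z' hz'
      have h1 : A z₁ = pert b w y₀ m z := by rw [hA, ContinuousLinearMap.comp_apply, hz₁]
      rw [h1]
      obtain ⟨z₂, hz₂, hz₂m⟩ := hcompmax m
      obtain ⟨z₃, hz₃, hz₃e⟩ := hmaxQ m hm z₂ hz₂ hz₂m
      calc ‖A z'‖ = ‖pert b w y₀ m (A₀ z')‖ := rfl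
        _ ≤ ‖pert b w y₀ m (A₀ z₂)‖ := hz₂m z' hz'
        _ = ‖pert b w y₀ m z₃‖ := hz₃e.symm
        _ ≤ ‖pert b w y₀ m z‖ := hzmax z₃ hz₃
    · -- `w y ≥ 1/2`
      rw [mem_ofPred_eq, hwy']
      have h1 := hbsmall m hm z hz
      have h2 : ‖pert b w y₀ m z‖ ≤ (1 + 1 / 24 + 1 / 24) * w z := by
        have h3 : pert b w y₀ m z
            = (w z + b m (proj w y₀ z)) • y₀ + (proj w y₀ z + w z • (m : Y)) := by
          rw [pert_apply, proj_apply]
          module
        rw [h3]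
        have h4 : ‖(proj w y₀ z + w z • (m : Y))‖ ≤ ν * w z + w z * ν := by
          refine (norm_add_le _ _).trans ?_
          rw [norm_smul, Real.norm_of_nonneg hwz.le]
          have h5 : ‖proj w y₀ z‖ ≤ ν * w z := hz.2.2
          have h6 : w z * ‖(m : Y)‖ ≤ w z * ν := by
            gcongr
            exact (hUm m hm).trans hrm1
          linarith
        have h7 : ‖(w z + b m (proj w y₀ z)) • y₀‖ ≤ w z + w z / 24 := by
          rw [norm_smul, hy₀, mul_one, Real.norm_eq_abs]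
          refine (abs_add_le _ _).trans ?_
          rw [abs_of_pos hwz]
          linarith
        have h8 : ν * w z ≤ (1 / 2400) * w z := by gcongr
        calc ‖(w z + b m (proj w y₀ z)) • y₀ + (proj w y₀ z + w z • (m : Y))‖
            ≤ ‖(w z + b m (proj w y₀ z)) • y₀‖ + ‖(proj w y₀ z + w z • (m : Y))‖ :=
              norm_add_le _ _
          _ ≤ (1 + 1 / 24 + 1 / 24) * w z := by linarith
      have h3 : (1 - 1 / 24) * w z ≤ w (pert b w y₀ m z) := by
        rw [hwB]
        have := (abs_le.1 h1).1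
        linarith
      have h4 : 1 / 2 * ‖pert b w y₀ m z‖ ≤ w (pert b w y₀ m z) := by linarith
      rw [le_inv_mul_iff₀ hBne]
      linarith
    · -- the slope
      apply Subtype.ext
      change (w y)⁻¹ • proj w y₀ y = ((S m z : W) : Y)
      rw [hScoe, ← proj_pert hwy₀ (hWmem m), ← hwB, hwy', hy, map_smul, smul_smul]
      congr 1
      field_simp
  have hslope : LipschitzOnWith 12 (fun y => (w y)⁻¹ • πW y) (G ∩ {y | 1 / 2 ≤ w y}) := by
    refine LipschitzOnWith.of_dist_le_mul ?_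
    rintro y ⟨hyG, hwy1⟩ y' ⟨hyG', hwy1'⟩
    rw [dist_eq_norm, dist_eq_norm]
    change ‖(w y)⁻¹ • proj w y₀ y - (w y')⁻¹ • proj w y₀ y'‖ ≤ _
    exact slope_lipschitz hw hy₀.le hyG'.1 hwy1 hwy1'
  have hXnull : (μH[(Module.finrank ℝ W : ℝ)] : Measure W) X = 0 := by
    refine le_antisymm ?_ bot_le
    calc (μH[(Module.finrank ℝ W : ℝ)] : Measure W) X
        ≤ μH[(Module.finrank ℝ W : ℝ)] ((fun y => (w y)⁻¹ • πW y) '' (G ∩ {y | 1 / 2 ≤ w y})) :=
          measure_mono hXsub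
      _ ≤ ((12 : ℝ≥0) : ℝ≥0∞) ^ (Module.finrank ℝ W : ℝ)
          * μH[(Module.finrank ℝ W : ℝ)] (G ∩ {y | 1 / 2 ≤ w y}) :=
          hslope.hausdorffMeasure_image_le hk0
      _ = 0 := by
          have h1 : μH[(Module.finrank ℝ W : ℝ)] (G ∩ {y | 1 / 2 ≤ w y}) = 0 := by
            refine le_antisymm ?_ bot_le
            rw [hfin, ← hnull]
            exact measure_mono inter_subset_left
          rw [h1, mul_zero]
  rw [hXnull, mul_zero] at hmain
  have hUpos : 0 < (μH[(Module.finrank ℝ W : ℝ)] : Measure W) U :=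
    measure_closedBall_pos _ _ hrmpos
  exact absurd hmain (not_le.2 hUpos)

end Pool.Agent.Helper63.PropB
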