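import Mathlib
import Pool.Agent.Helper63.PropB.Defs
import Pool.Agent.Helper63.PropB.Vertex

/-!
Facets of the unit ball give vertices of the dual ball.
-/

namespace Pool.Agent.Helper63.PropB

open Set Metric Filter Topology

universe v

variable {Y : Type v} [NormedAddCommGroup Y] [NormedSpace ℝ Y]

theorem exists_functional_of_face {F : Set Y} (hF : Convex ℝ F) (hFs : F ⊆ sphere (0 : Y) 1)
    : ∃ w : Y →L[ℝ] ℝ, ‖w‖ ≤ 1 ∧ ∀ y ∈ F, w y = 1 := by
  have hdisj : Disjoint (ball (0 : Y) 1) F := by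
    rw [Set.disjoint_left]
    intro y hy hyF
    have h1 := mem_sphere_zero_iff_norm.1 (hFs hyF)
    rw [mem_ball_zero_iff] at hy
    linarith
  obtain ⟨f, u, hfu, huf⟩ := geometric_hahn_banach_open (convex_ball (0 : Y) 1) isOpen_ball hF hdisj
  have hu : 0 < u := by simpa using hfu 0 (by simp)
  have hle : ∀ z : Y, f z ≤ u * ‖z‖ := by
    intro z
    refine le_of_forall_pos_le_add (fun ε hε => ?_)
    have hpos : 0 < ‖z‖ + ε / u := by positivity
    have h1 : f ((‖z‖ + ε / u)⁻¹ • z) < u := by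
      apply hfu
      rw [mem_ball_zero_iff, norm_smul, norm_inv, Real.norm_of_nonneg hpos.le,
        inv_mul_lt_iff₀ hpos]
      have : 0 < ε / u := by positivity
      linarith
    rw [map_smul, smul_eq_mul, inv_mul_lt_iff₀ hpos] at h1
    have h2 : (‖z‖ + ε / u) * u = u * ‖z‖ + ε := by field_simp
    linarith
  have hnorm : ‖f‖ ≤ u := by
    refine f.opNorm_le_bound hu.le (fun z => ?_)
    rw [Real.norm_eq_abs, abs_le]
    constructor
    · have := hle (-z)
      rw [map_neg, norm_neg] at this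
      linarith
    · exact hle z
  refine ⟨u⁻¹ • f, ?_, ?_⟩
  · rw [norm_smul, norm_inv, Real.norm_of_nonneg hu.le, inv_mul_le_iff₀ hu]
    linarith
  · intro y hy
    have h1 := huf y hy
    have h2 := hle y
    rw [mem_sphere_zero_iff_norm.1 (hFs hy), mul_one] at h2
    have h3 : f y = u := le_antisymm h2 h1
    rw [smul_apply, h3, smul_eq_mul, inv_mul_cancel₀ hu.ne']

theorem isVertex_of_basis {ι : Type*} [Fintype ι] [Nonempty ι] (B : Module.Basis ι ℝ Y)
    {F : Set Y} (hF : Convex ℝ F) (hFs : F ⊆ sphere (0 : Y) 1) (hBF : ∀ i, B i ∈ F)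
    {w : Y →L[ℝ] ℝ} (hwF : ∀ y ∈ F, w y = 1) : IsVertex w := by
  set n : ℕ := Fintype.card ι with hn
  have hnpos : (0 : ℝ) < n := by
    rw [hn]; exact_mod_cast Fintype.card_pos
  have hfin : FiniteDimensional ℝ Y := B.finiteDimensional_of_finite
  set L : Y →L[ℝ] (ι → ℝ) := B.equivFun.toLinearMap.toContinuousLinearMap with hL
  have hcoord : ∀ m : Y, ∀ i, |B.equivFun m i| ≤ ‖L‖ * ‖m‖ := by
    intro m i
    calc |B.equivFun m i| = ‖(L m) i‖ := rfl
      _ ≤ ‖L m‖ := norm_le_pi_norm _ i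
      _ ≤ ‖L‖ * ‖m‖ := L.le_opNorm m
  set s : ℝ := (n : ℝ)⁻¹ / (‖L‖ + 1) with hs
  have hspos : 0 < s := by positivity
  refine ⟨∑ i, (n : ℝ)⁻¹ • B i, s, hspos, ?_, ?_⟩
  · rw [map_sum]
    have : ∀ i, w ((n : ℝ)⁻¹ • B i) = (n : ℝ)⁻¹ := by
      intro i
      rw [map_smul, hwF _ (hBF i), smul_eq_mul, mul_one]
    rw [Finset.sum_congr rfl (fun i _ => this i), Finset.sum_const, Finset.card_univ, ← hn,
      nsmul_eq_mul, mul_inv_cancel₀ hnpos.ne']
  · intro m hwm hms
    have hsum : ∑ i, B.equivFun m i • B i = m := B.sum_equivFun m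
    have h1 : ∑ i, (n : ℝ)⁻¹ • B i + m = ∑ i, ((n : ℝ)⁻¹ + B.equivFun m i) • B i := by
      nth_rewrite 1 [← hsum]
      rw [← Finset.sum_add_distrib]
      exact Finset.sum_congr rfl (fun i _ => (add_smul _ _ _).symm)
    have h2 : ∑ i, B.equivFun m i = 0 := by
      have h3 : w (∑ i, B.equivFun m i • B i) = ∑ i, B.equivFun m i := by
        rw [map_sum]
        refine Finset.sum_congr rfl (fun i _ => ?_)
        rw [map_smul, hwF _ (hBF i), smul_eq_mul, mul_one]
      rw [← h3, hsum, hwm]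
    have h3 : ∑ i, (n : ℝ)⁻¹ • B i + m ∈ F := by
      rw [h1]
      refine hF.sum_mem (fun i _ => ?_) ?_ (fun i _ => hBF i)
      · have h4 := (abs_le.1 (hcoord m i)).1
        have h5 : ‖L‖ * ‖m‖ ≤ (‖L‖ + 1) * s := by
          gcongr
          linarith
        have h6 : (‖L‖ + 1) * s = (n : ℝ)⁻¹ := by
          rw [hs]; field_simp
        linarith
      · rw [Finset.sum_add_distrib, h2, add_zero, Finset.sum_const, Finset.card_univ, ← hn,
          nsmul_eq_mul, mul_inv_cancel₀ hnpos.ne']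
    exact (mem_sphere_zero_iff_norm.1 (hFs h3)).le

theorem exists_vertex_of_inFacet [FiniteDimensional ℝ Y] {y : Y} (hy : InFacet y) :
    ∃ w : Y →L[ℝ] ℝ, ‖w‖ ≤ 1 ∧ w y = 1 ∧ IsVertex w := by
  classical
  obtain ⟨F, hF, hFs, hyF, hspan⟩ := hy
  obtain ⟨w, hw, hwF⟩ := exists_functional_of_face hF hFs
  refine ⟨w, hw, hwF y hyF, ?_⟩
  let B := Module.Basis.ofSpan hspan.ge
  have hBF : ∀ i, B i ∈ F := fun i => Module.Basis.ofSpan_subset hspan.ge (mem_range_self i)
  let _ : Fintype _ := FiniteDimensional.fintypeBasisIndex B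
  have hne : Nonempty ((linearIndepOn_empty ℝ (id : Y → Y)).extend (empty_subset F)) := by
    by_contra hemp
    rw [not_nonempty_iff] at hemp
    have h1 : y = 0 := by
      rw [← B.sum_repr y]
      simp
    have h2 := hwF y hyF
    rw [h1, map_zero] at h2
    exact zero_ne_one h2
  exact isVertex_of_basis B hF hFs hBF hwF

end Pool.Agent.Helper63.PropB
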