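import Mathlib
import Pool.Agent.Helper63.PropB.Baire
import Pool.Agent.Helper63.PropB.Facet
import Pool.Agent.Helper63.PropB.ContactNull

/-!
Finite dimensional spaces in which almost every point of the unit sphere lies in a facet have
Lindenstrauss' property B.
-/

namespace Pool.Agent.Helper63.PropB

open Set Metric Filter Topology MeasureTheory Measure

universe u v

variable {X : Type u} [NormedAddCommGroup X] [NormedSpace ℝ X]
variable {Y : Type v} [NormedAddCommGroup Y] [NormedSpace ℝ Y]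

theorem neg_mem_imBall (T : X →L[ℝ] Y) {z : Y} (hz : z ∈ imBall T) : -z ∈ imBall T := by
  have h1 : imBall T ⊆ {z : Y | -z ∈ imBall T} := by
    refine closure_minimal ?_ (isClosed_closure.preimage continuous_neg)
    rintro _ ⟨x, hx, rfl⟩
    refine subset_closure ⟨-x, ?_, map_neg T x⟩
    rw [mem_closedBall_zero_iff] at hx ⊢
    rwa [norm_neg]
  exact h1 hz

/-- If the norm on the closure of the image of the unit ball is at most `K`, then `‖T‖ ≤ K`. -/
theorem opNorm_le_of_imBall (T : X →L[ℝ] Y) (A : Y →L[ℝ] Y) {K : ℝ} (hK : 0 ≤ K)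
    (h : ∀ z ∈ imBall T, ‖A z‖ ≤ K) : ‖A.comp T‖ ≤ K := by
  refine (A.comp T).opNorm_le_bound hK (fun x => ?_)
  rcases eq_or_ne x 0 with h0 | h0
  · subst h0; simp
  have hpos : 0 < ‖x‖ := norm_pos_iff.2 h0
  have h1 : ‖A (T (‖x‖⁻¹ • x))‖ ≤ K := by
    refine h _ (subset_closure ⟨_, ?_, rfl⟩)
    rw [mem_closedBall_zero_iff, norm_smul, norm_inv, norm_norm, inv_mul_cancel₀ hpos.ne']
  rw [map_smul, map_smul, norm_smul, norm_inv, norm_norm, inv_mul_le_iff₀ hpos] at h1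
  calc ‖(A.comp T) x‖ = ‖A (T x)‖ := rfl
    _ ≤ ‖x‖ * K := h1
    _ = K * ‖x‖ := mul_comm _ _

/-- Every operator `T` into a finite dimensional space can be replaced by `A ∘ T` with `A` close
to the identity such that the norm is approached at a point of the sphere outside a prescribed
null set. -/
theorem exists_contact_outside [FiniteDimensional ℝ Y] [MeasurableSpace Y] [BorelSpace Y]
    (T : X →L[ℝ] Y) (hT : T ≠ 0) {N : Set Y}
    (hN : μH[(Module.finrank ℝ Y : ℝ) - 1] N = 0) {ρ : ℝ} (hρ : 0 < ρ) :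
    ∃ A : Y →L[ℝ] Y, ‖A - ContinuousLinearMap.id ℝ Y‖ < ρ ∧ ∃ y : Y, ‖y‖ = 1 ∧ y ∉ N ∧
      ‖A.comp T‖ • y ∈ A '' imBall T := by
  have hne : ∃ z ∈ imBall T, z ≠ 0 := by
    by_contra hcon
    push Not at hcon
    apply hT
    have h1 := opNorm_le_of_imBall T (ContinuousLinearMap.id ℝ Y) le_rfl
      (fun z hz => by rw [hcon z hz]; simp)
    rw [ContinuousLinearMap.id_comp] at h1
    exact norm_le_zero_iff.1 h1
  have hpos := contact_not_null (isCompact_imBall T) (fun z hz => neg_mem_imBall T hz) hne hρ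
  obtain ⟨y, ⟨hy, A, hA, z, hz, hAz, hmax⟩, hyN⟩ : ∃ y, y ∈ {y : Y | ‖y‖ = 1 ∧
      ∃ A : Y →L[ℝ] Y, ‖A - ContinuousLinearMap.id ℝ Y‖ < ρ ∧ ∃ z ∈ imBall T, A z = ‖A z‖ • y ∧
      ∀ z' ∈ imBall T, ‖A z'‖ ≤ ‖A z‖} ∧ y ∉ N := by
    by_contra hcon
    push Not at hcon
    exact hpos (measure_mono_null hcon hN)
  have hnorm : ‖A.comp T‖ = ‖A z‖ :=
    le_antisymm (opNorm_le_of_imBall T A (norm_nonneg _) hmax) (norm_le_of_mem_imBall T hz A)
  exact ⟨A, hA, y, hy, hyN, z, hz, by rw [hnorm]; exact hAz⟩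

theorem propertyB_of_ae_facet [FiniteDimensional ℝ Y] [MeasurableSpace Y] [BorelSpace Y]
    (h : μH[(Module.finrank ℝ Y : ℝ) - 1] {y : Y | ‖y‖ = 1 ∧ ¬ InFacet y} = 0) :
    PropertyB.{u, v} Y := by
  intro X _ _ _ _
  rw [Metric.dense_iff]
  intro T r hr
  rcases eq_or_ne T 0 with h0 | h0
  · subst h0
    obtain ⟨x, hx⟩ := exists_norm_eq X (zero_le_one)
    exact ⟨0, mem_ball_self hr, ⟨x, hx, by simp⟩⟩
  have hTpos : 0 < ‖T‖ := norm_pos_iff.2 h0
  obtain ⟨A, hA, y, hy, hyN, z, hz, hAz⟩ := exists_contact_outside T h0 h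
    (ρ := r / (2 * ‖T‖)) (by positivity)
  have hyF : InFacet y := by
    by_contra hnot
    exact hyN ⟨hy, hnot⟩
  obtain ⟨w, hw, hwy, hv⟩ := exists_vertex_of_inFacet hyF
  have hatt : ‖w.comp (A.comp T)‖ = ‖A.comp T‖ := by
    refine le_antisymm (comp_norm_le hw) ?_
    have h1 := norm_le_of_mem_imBall T hz (w.comp A)
    have h2 : (w.comp A) z = ‖A.comp T‖ := by
      rw [ContinuousLinearMap.comp_apply, hAz, map_smul, hwy, smul_eq_mul, mul_one]
    rw [h2, norm_norm, ContinuousLinearMap.comp_assoc] at h1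
    exact h1
  obtain ⟨T', hT', hclose⟩ := approx_of_vertex (A.comp T) hw hv hatt (half_pos hr)
  refine ⟨T', ?_, hT'⟩
  rw [mem_ball, dist_eq_norm]
  have h1 : T' - T = (T' - A.comp T) + (A - ContinuousLinearMap.id ℝ Y).comp T := by
    ext x; simp
  rw [h1]
  refine (norm_add_le _ _).trans_lt ?_
  have h2 : ‖(A - ContinuousLinearMap.id ℝ Y).comp T‖ ≤ r / (2 * ‖T‖) * ‖T‖ := by
    refine (ContinuousLinearMap.opNorm_comp_le _ _).trans ?_
    gcongr
  have h3 : r / (2 * ‖T‖) * ‖T‖ = r / 2 := by field_simp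
  linarith

end Pool.Agent.Helper63.PropB
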