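import Pool.Agent.Helper63.PropB.AlmostPoly

/-!
Lindenstrauss' property B for finite dimensional spaces that are polyhedral almost everywhere:
if, up to a null set for the `(n - 1)`-dimensional Hausdorff measure, every point of the unit
sphere of the `n`-dimensional real normed space `Y` lies in a facet (an `(n - 1)`-dimensional face)
of the unit ball, then `Y` has property B.

Proof. (1) If the norm of `T : X → Y` is attained, in the supremum sense, at a functional `w` of
the dual ball whose face `{w = 1}` is a facet, then `T` is a limit of norm attaining operators
(`approx_of_vertex`, from the Bishop-Phelps theorem). (2) Let `C` be the closure of the image of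
the unit ball of `X`. For linear maps `A` close to the identity, the set of the points of the
sphere at which the norm of `Y`, restricted to `A C`, is maximal (up to the factor) does not have
measure zero (`contact_not_null`): after a localisation, the maps
`A = 1 + w(.) m + b(m, .) y₀` with `m` in the kernel of `w` send different `m` to different
maximizing directions, also across different points of `C`; on a finite subset of `C` this gives
cells on which the direction is an expanding function of `m`, hence a lower bound for the measure
of the set of directions, and the bound passes to `C` by compactness.
(3) So some `A` close to the identity has a maximizing direction in a facet, and (1) applies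
to `A ∘ T`.
-/

namespace Pool.Agent.Helper63.PropB.AlmostPolyhedral

open Pool.Agent.Helper63.PropB MeasureTheory

universe u v

/-- If almost every point of the unit sphere of a finite dimensional real normed space `Y`, for
the Hausdorff measure of dimension `dim Y - 1`, lies in a facet of the unit ball, then `Y` has
Lindenstrauss' property B. -/
theorem main (Y : Type v) [NormedAddCommGroup Y] [NormedSpace ℝ Y] [FiniteDimensional ℝ Y]
    [MeasurableSpace Y] [BorelSpace Y]
    (h : Measure.hausdorffMeasure ((Module.finrank ℝ Y : ℝ) - 1)
      {y : Y | ‖y‖ = 1 ∧ ¬ InFacet y} = 0) :
    PropertyB.{u, v} Y :=
  propertyB_of_ae_facet h

end Pool.Agent.Helper63.PropB.AlmostPolyhedral
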